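import Mathlib
import Pool.Agent.Lib.MP_4cba3d_ag.Defs

/-!
# The snake: definitions

`r = s ^ 2`, the first equation is `s ^ 2 * B v = A v`, i.e. `r = R v`; the second one is
`W r - r * S s v = 0`.  See /team-store/MP_4cba3d_ag_paper65.md.
-/

set_option autoImplicit false

namespace Fewnomial.Snake

open Finset

/-- The even monomial `M_{2i}` of the snake. -/
noncomputable def Me (i : ℕ) (ε s v : ℝ) : ℝ := s ^ 2 * (ε ^ (2 * (i * (i - 1))) * v ^ (4 * i))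

/-- The odd monomial `M_{2i+1}` of the snake. -/
noncomputable def Mo (i : ℕ) (ε v : ℝ) : ℝ := ε ^ (2 * i ^ 2) * v ^ (4 * i + 2)

/-- The odd part of the snake. -/
noncomputable def A (k : ℕ) (ε v : ℝ) : ℝ := ∑ i ∈ range k, ε ^ (2 * i ^ 2) * v ^ (4 * i + 2)

/-- The even part of the snake, divided by `s ^ 2`. -/
noncomputable def B (k : ℕ) (ε v : ℝ) : ℝ :=
  ∑ i ∈ range (k + 1), ε ^ (2 * (i * (i - 1))) * v ^ (4 * i)

/-- Additional monomials. -/
noncomputable def D (k e : ℕ) (v : ℝ) : ℝ := ∑ i ∈ range e, v ^ (4 * (k + 1 + i))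

/-- The snake as a graph, `r = R v`. -/
noncomputable def R (k e : ℕ) (ε η v : ℝ) : ℝ := A k ε v / (B k ε v + η * D k e v)

/-- Coefficient of `s * v ^ (4 * d + 1)` in `T`. -/
noncomputable def ca (k d : ℕ) (ε : ℝ) : ℝ :=
  ∑ j ∈ range (k - d), ε ^ (j + 2 * d * (2 * j + 1 + d))

/-- Coefficient of `- s⁻¹ * v ^ (4 * d + 3)` in `T`. -/
noncomputable def cb (k d : ℕ) (ε : ℝ) : ℝ :=
  ∑ j ∈ range (k - 1 - d), ε ^ (j + 2 * (1 + d) ^ 2 + 2 * j * (2 * d + 1))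

/-- The first half of `S`. -/
noncomputable def T (k : ℕ) (ε s v : ℝ) : ℝ :=
  ∑ d ∈ range k, ca k d ε * (s * v ^ (4 * d + 1)) -
    ∑ d ∈ range (k - 1), cb k d ε * (s⁻¹ * v ^ (4 * d + 3))

/-- On the snake this is close to `√(1 + 2 * r)`. -/
noncomputable def S (k : ℕ) (ε s v : ℝ) : ℝ := T k ε s v + T k ε s (ε ^ (k - 1) * v)⁻¹

/-- The `n` term generalized polynomial. -/
noncomputable def W (n Q : ℕ) (E : ℕ → ℕ) (w : ℕ → ℝ) (r : ℝ) : ℝ :=
  ∑ j ∈ range n, w j * r ^ ((E j : ℝ) / (Q : ℝ))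

/-- The second polynomial on the snake, divided by a monomial. -/
noncomputable def F (k n e Q : ℕ) (E : ℕ → ℕ) (w : ℕ → ℝ) (ε η v : ℝ) : ℝ :=
  W n Q E w (R k e ε η v) - R k e ε η v * S k ε (√(R k e ε η v)) v

/-- The limit of `R` at the location with coordinate `τ`. -/
noncomputable def rho (τ : ℝ) : ℝ := τ ^ 2 / (1 + τ ^ 4)

/-- The Taylor coefficients of `√(1 + 2 * r)`. -/
noncomputable def tb : ℕ → ℝ
  | 0 => 1
  | i + 1 => tb i * (1 - 2 * (i : ℝ)) / ((i : ℝ) + 1)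

end Fewnomial.Snake
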