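import Mathlib
import Pool.Agent.Lib.FewSnake.Defs
import Pool.Agent.Lib.MP_4cba3d_ag.LowCheb

/-!
# `e ^ (n x)` against the confluent exponential sums (size about 60)

Apply `Fewnomial.Low.exists_alt n Ψ 0` with `Ψ x = c * exp (n * x)`.  Hypothesis: suppose
`Ψ = Low.G n l k` on all `x < b'`.  Then `Low.G (n + 1) l' k'` with `l' j = l j`, `k' j = k j` for
`j < n` and `l' n = -c`, `k' n = 0` vanishes at all `x < b'` (`Finset.sum_range_succ`), e.g. at
`2 (n + 1)` different points, so `Fewnomial.Low.cheb (n + 1)` gives `-c = 0`, a contradiction.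
(So there is `x < b'` with `Ψ x ≠ Low.G n l k x`.)
-/

set_option autoImplicit false

namespace Fewnomial.Snake

theorem alt_G (n : ℕ) (c : ℝ) (hc : c ≠ 0) :
    ∃ t : Fin (2 * n + 1) → ℝ, StrictMono t ∧ ∃ (l κ : ℕ → ℝ) (η : ℝ), η ≠ 0 ∧
      ∀ i, c * Real.exp (n * t i) - Low.G n l κ (t i) = (-1) ^ (i : ℕ) * η := by
  have hΨ : ∀ (l k : ℕ → ℝ) (b' : ℝ), b' ≤ 0 →
      ∃ τ < b', (fun x : ℝ => c * Real.exp (n * x)) τ ≠ Low.G n l k τ := by
    intro l k b' _
    by_contra hcon
    push Not at hcon
    have hinj : Function.Injective (fun i : ℕ => b' - 1 - (i : ℝ)) := by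
      intro i j hij
      have h1 : b' - 1 - (i : ℝ) = b' - 1 - (j : ℝ) := hij
      have h2 : (i : ℝ) = j := by linarith
      exact_mod_cast h2
    have hz : ∀ z ∈ (Finset.range (2 * (n + 1))).image (fun i : ℕ => b' - 1 - (i : ℝ)),
        Low.G (n + 1) (fun j => if j < n then l j else -c) (fun j => if j < n then k j else 0) z
          = 0 := by
      intro z hz
      obtain ⟨i, _, rfl⟩ := Finset.mem_image.1 hz
      have hi : b' - 1 - (i : ℝ) < b' := by
        have : (0 : ℝ) ≤ i := Nat.cast_nonneg i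
        linarith
      have h1 := hcon _ hi
      have h2 : Low.G n (fun j => if j < n then l j else -c) (fun j => if j < n then k j else 0)
          (b' - 1 - (i : ℝ)) = Low.G n l k (b' - 1 - (i : ℝ)) :=
        Low.G_congr (fun j hj => by simp [hj]) (fun j hj => by simp [hj]) _
      have h3 : Low.G (n + 1) (fun j => if j < n then l j else -c)
          (fun j => if j < n then k j else 0) (b' - 1 - (i : ℝ)) =
          Low.G n (fun j => if j < n then l j else -c) (fun j => if j < n then k j else 0)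
          (b' - 1 - (i : ℝ)) + (-c + 0 * (b' - 1 - (i : ℝ))) *
            Real.exp (n * (b' - 1 - (i : ℝ))) := by
        unfold Low.G
        rw [Finset.sum_range_succ]
        simp
      rw [h3, h2, ← h1]
      ring
    have h4 := (Low.cheb (n + 1) _ _ _ (by
      rw [Finset.card_image_of_injective _ hinj, Finset.card_range]) hz n (Nat.lt_succ_self n)).1
    simp only [lt_irrefl, if_false] at h4
    exact hc (neg_eq_zero.1 h4)
  obtain ⟨t, ht, _, l, k, η, hη, h⟩ := Low.exists_alt n _ 0 hΨ
  exact ⟨t, ht, l, k, η, hη, h⟩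

end Fewnomial.Snake
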