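import Mathlib
import Pool.Agent.Lib.FewSnake.Defs

/-!
# Taylor expansion of `√(1 + 2 r)` (size about 90)

`tb_ne`: `1 - 2 i ≠ 0` for natural `i` (parity), induction.
`tay`: put `P r = ∑ i ∈ range (n + 1), tb i * r ^ i`.  The coefficients satisfy
`(i + 1) * tb (i + 1) + (2 * i - 1) * tb i = 0`, so `(1 + 2 r) P' r - P r = (2 n - 1) tb n r ^ n`
(induction on `n`).  For `g r = P r / √(1 + 2 r)` one gets
`g' r = (2 n - 1) tb n r ^ n / ((1 + 2 r) √(1 + 2 r))`, `g 0 = 1`, so `|g' r| ≤ |2 n - 1| |tb n| x ^ n`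
for `0 ≤ r ≤ x` and `|g x - 1| ≤ |2 n - 1| |tb n| x ^ (n + 1)`
(`Convex.norm_image_sub_le_of_norm_hasDerivWithin_le` or `norm_image_sub_le_of_norm_deriv_le_segment`
on `[0, x]`).  Finally `|P x - √(1 + 2 x)| = √(1 + 2 x) |g x - 1| ≤ 2 |g x - 1|` for `x ≤ 1`.
-/

set_option autoImplicit false

namespace Fewnomial.Snake

open Finset

theorem tb_ne (i : ℕ) : tb i ≠ 0 := by
  induction i with
  | zero => simp [tb]
  | succ i ih =>
    show tb i * (1 - 2 * (i : ℝ)) / ((i : ℝ) + 1) ≠ 0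
    have h1 : (1 - 2 * (i : ℝ)) ≠ 0 := by
      intro h
      have h2 : (2 * i : ℕ) = (1 : ℕ) := by
        have : ((2 * i : ℕ) : ℝ) = ((1 : ℕ) : ℝ) := by push_cast; linarith
        exact_mod_cast this
      omega
    have h3 : ((i : ℝ) + 1) ≠ 0 := by positivity
    exact div_ne_zero (mul_ne_zero ih h1) h3

private theorem tb_succ (n : ℕ) : tb (n + 1) * ((n : ℝ) + 1) = (1 - 2 * (n : ℝ)) * tb n := by
  show tb n * (1 - 2 * (n : ℝ)) / ((n : ℝ) + 1) * ((n : ℝ) + 1) = _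
  have h3 : ((n : ℝ) + 1) ≠ 0 := by positivity
  rw [div_mul_cancel₀ _ h3, mul_comm]

private theorem hasDeriv_P (n : ℕ) (r : ℝ) :
    HasDerivAt (fun r : ℝ => ∑ i ∈ range (n + 1), tb i * r ^ i)
      (∑ i ∈ range n, (1 - 2 * (i : ℝ)) * tb i * r ^ i) r := by
  induction n with
  | zero =>
    simp only [range_zero, sum_empty, zero_add, range_one, sum_singleton, pow_zero]
    exact hasDerivAt_const _ _
  | succ n ih =>
    have h1 : (fun r : ℝ => ∑ i ∈ range (n + 1 + 1), tb i * r ^ i) =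
        fun r : ℝ => ∑ i ∈ range (n + 1), tb i * r ^ i + tb (n + 1) * r ^ (n + 1) := by
      funext r
      rw [sum_range_succ]
    rw [h1, sum_range_succ]
    have h2 : HasDerivAt (fun r : ℝ => tb (n + 1) * r ^ (n + 1))
        ((1 - 2 * (n : ℝ)) * tb n * r ^ n) r := by
      have h3 := (hasDerivAt_pow (n + 1) r).const_mul (tb (n + 1))
      have h4 : tb (n + 1) * (((n + 1 : ℕ) : ℝ) * r ^ (n + 1 - 1)) =
          (1 - 2 * (n : ℝ)) * tb n * r ^ n := by
        rw [← tb_succ, Nat.add_sub_cancel]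
        push_cast
        ring
      rw [h4] at h3
      exact h3
    exact ih.add h2

private theorem ident (n : ℕ) (r : ℝ) :
    (1 + 2 * r) * (∑ i ∈ range n, (1 - 2 * (i : ℝ)) * tb i * r ^ i) -
      ∑ i ∈ range (n + 1), tb i * r ^ i = (2 * (n : ℝ) - 1) * tb n * r ^ n := by
  induction n with
  | zero => simp [tb]
  | succ n ih =>
    rw [sum_range_succ, sum_range_succ (fun i => tb i * r ^ i) (n + 1)]
    have h := tb_succ n
    have e : (1 + 2 * r) * (∑ i ∈ range n, (1 - 2 * (i : ℝ)) * tb i * r ^ i +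
        (1 - 2 * (n : ℝ)) * tb n * r ^ n) -
        (∑ i ∈ range (n + 1), tb i * r ^ i + tb (n + 1) * r ^ (n + 1)) =
        ((1 + 2 * r) * (∑ i ∈ range n, (1 - 2 * (i : ℝ)) * tb i * r ^ i) -
          ∑ i ∈ range (n + 1), tb i * r ^ i) +
        (1 + 2 * r) * ((1 - 2 * (n : ℝ)) * tb n * r ^ n) - tb (n + 1) * r ^ (n + 1) := by ring
    rw [e, ih, ← h]
    have h' : (2 * (n : ℝ) - 1) * tb n = -(tb (n + 1) * ((n : ℝ) + 1)) := by
      rw [h]; ring
    rw [h']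
    push_cast
    ring

theorem tay (n : ℕ) : ∃ C : ℝ, 0 < C ∧ ∀ x : ℝ, 0 ≤ x → x ≤ 1 →
    |∑ i ∈ range (n + 1), tb i * x ^ i - √(1 + 2 * x)| ≤ C * x ^ (n + 1) := by
  refine ⟨2 * (|2 * (n : ℝ) - 1| * |tb n|) + 1, by positivity, ?_⟩
  intro x hx0 hx1
  set P : ℝ → ℝ := fun r => ∑ i ∈ range (n + 1), tb i * r ^ i with hP
  have hP0 : P 0 = 1 := by
    rw [hP]
    simp only
    rw [sum_range_succ']
    simp [tb]
  have hderiv : ∀ r ∈ Set.Icc (0 : ℝ) x, HasDerivWithinAt (fun r => P r / √(1 + 2 * r))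
      ((2 * (n : ℝ) - 1) * tb n * r ^ n / ((1 + 2 * r) * √(1 + 2 * r))) (Set.Icc 0 x) r := by
    intro r hr
    have hpos : 0 < 1 + 2 * r := by linarith [hr.1]
    have hs : 0 < √(1 + 2 * r) := Real.sqrt_pos.2 hpos
    have h1 : HasDerivAt (fun r : ℝ => 1 + 2 * r) 2 r := by
      have := ((hasDerivAt_id r).const_mul 2).const_add 1
      simpa using this
    have h2 := h1.sqrt hpos.ne'
    have h3 := (hasDeriv_P n r).div h2 hs.ne'
    have h4 := ident n r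
    have hsq : √(1 + 2 * r) ^ 2 = 1 + 2 * r := Real.sq_sqrt hpos.le
    have h5 : ((∑ i ∈ range n, (1 - 2 * (i : ℝ)) * tb i * r ^ i) * √(1 + 2 * r) -
        (∑ i ∈ range (n + 1), tb i * r ^ i) * (2 / (2 * √(1 + 2 * r)))) / √(1 + 2 * r) ^ 2 =
        (2 * (n : ℝ) - 1) * tb n * r ^ n / ((1 + 2 * r) * √(1 + 2 * r)) := by
      rw [← h4, hsq]
      have hmul : √(1 + 2 * r) * √(1 + 2 * r) = 1 + 2 * r := by rw [← sq]; exact hsq
      have hne := hs.ne'
      have hne2 := hpos.ne'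
      rw [div_eq_div_iff hne2 (mul_ne_zero hne2 hne)]
      have h6 : (2 : ℝ) / (2 * √(1 + 2 * r)) * √(1 + 2 * r) = 1 := by
        field_simp
      calc _ = (1 + 2 * r) * ((∑ i ∈ range n, (1 - 2 * (i : ℝ)) * tb i * r ^ i) *
            (√(1 + 2 * r) * √(1 + 2 * r)) - (∑ i ∈ range (n + 1), tb i * r ^ i) *
            (2 / (2 * √(1 + 2 * r)) * √(1 + 2 * r))) := by ring
        _ = _ := by rw [hmul, h6]; ring
    rw [h5] at h3
    exact h3.hasDerivWithinAt
  have hbound : ∀ r ∈ Set.Icc (0 : ℝ) x,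
      ‖(2 * (n : ℝ) - 1) * tb n * r ^ n / ((1 + 2 * r) * √(1 + 2 * r))‖ ≤
        |2 * (n : ℝ) - 1| * |tb n| * x ^ n := by
    intro r hr
    have hpos : 1 ≤ 1 + 2 * r := by linarith [hr.1]
    have hs : 1 ≤ √(1 + 2 * r) := Real.one_le_sqrt.2 hpos
    have hden : 1 ≤ (1 + 2 * r) * √(1 + 2 * r) := one_le_mul_of_one_le_of_one_le hpos hs
    rw [Real.norm_eq_abs, abs_div, abs_mul, abs_mul, abs_of_nonneg (pow_nonneg hr.1 n),
      abs_of_pos (lt_of_lt_of_le one_pos hden)]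
    refine (div_le_self (by have := hr.1; positivity) hden).trans ?_
    exact mul_le_mul_of_nonneg_left (pow_le_pow_left₀ hr.1 hr.2 n) (by positivity)
  have hmv := Convex.norm_image_sub_le_of_norm_hasDerivWithin_le hderiv hbound
    (convex_Icc 0 x) (Set.left_mem_Icc.2 hx0) (Set.right_mem_Icc.2 hx0)
  have hx3 : 0 < 1 + 2 * x := by linarith
  have hsx : 0 < √(1 + 2 * x) := Real.sqrt_pos.2 hx3
  have hs2 : √(1 + 2 * x) ≤ 2 := by
    apply Real.sqrt_le_iff.2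
    constructor
    · norm_num
    · linarith
  have hg0 : P 0 / √(1 + 2 * 0) = 1 := by
    rw [hP0]
    simp
  rw [hg0, Real.norm_eq_abs, Real.norm_eq_abs, sub_zero, abs_of_nonneg hx0] at hmv
  have hfin : P x - √(1 + 2 * x) = √(1 + 2 * x) * (P x / √(1 + 2 * x) - 1) := by
    field_simp
  show |P x - √(1 + 2 * x)| ≤ _
  rw [hfin, abs_mul, abs_of_pos hsx]
  have hK : 0 ≤ |2 * (n : ℝ) - 1| * |tb n| := by positivity
  calc √(1 + 2 * x) * |P x / √(1 + 2 * x) - 1| ≤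
        2 * (|2 * (n : ℝ) - 1| * |tb n| * x ^ n * x) :=
        mul_le_mul hs2 hmv (abs_nonneg _) (by norm_num)
    _ = 2 * (|2 * (n : ℝ) - 1| * |tb n|) * x ^ (n + 1) := by rw [pow_succ]; ring
    _ ≤ (2 * (|2 * (n : ℝ) - 1| * |tb n|) + 1) * x ^ (n + 1) :=
        mul_le_mul_of_nonneg_right (by linarith) (by positivity)

end Fewnomial.Snake
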