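import Mathlib
import Pool.Agent.Lib.FewSnake.Defs
import Pool.Agent.Lib.FewSnake.Tay
import Pool.Agent.Lib.MP_4cba3d_ag.LowCheb

/-!
# Perturbing the first `n` Taylor terms (size about 120)

For `h > 0` and `y_j = h ^ (n - j)` (`j < n`, so `y_j → 0`) one has `h ^ j * y_j = h ^ n` and
`(h ^ j (tb j + y_j l_j) exp ((j + y_j κ_j / tb j) x) - tb j (h exp x) ^ j) / h ^ n
   = exp (j x) * ((tb j + y_j l_j) exp (y_j κ_j / tb j * x) - tb j) / y_j`,
which tends to `exp (j x) (l_j + κ_j x)`, the derivative at `0` of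
`y ↦ (tb j + y l_j) exp (y κ_j / tb j * x)` (`tb_ne`; `hasDerivAt_iff_tendsto_slope`, compose with
`y_j → 0`, `y_j ≠ 0`).  And `(∑ j < n, tb j (h exp x) ^ j - √(1 + 2 h exp x)) / h ^ n` tends to
`- tb n exp (n x)` by `tay n`: it is `- tb n (exp x) ^ n` plus an error at most
`C h (exp x) ^ (n + 1)`.  Add up.
-/

set_option autoImplicit false

namespace Fewnomial.Snake

open Finset Filter
open scoped Topology

/-- The limit of one perturbed term. -/
private theorem pert_aux_term (n j : ℕ) (hj : j < n) (l κ : ℝ) (x : ℝ) :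
    Tendsto (fun h : ℝ => Real.exp (j * x) * (((tb j + h ^ (n - j) * l) *
        Real.exp (h ^ (n - j) * κ / tb j * x) - tb j) / h ^ (n - j)))
      (𝓝[>] 0) (𝓝 (Real.exp (j * x) * (l + κ * x))) := by
  have htb := tb_ne j
  -- derivative at zero
  have hd : HasDerivAt (fun y : ℝ => (tb j + y * l) * Real.exp (y * κ / tb j * x))
      (l + κ * x) 0 := by
    have h1 : HasDerivAt (fun y : ℝ => tb j + y * l) l 0 := by
      simpa using ((hasDerivAt_id (0 : ℝ)).mul_const l).const_add (tb j)
    have h2 : HasDerivAt (fun y : ℝ => y * κ / tb j * x) (κ / tb j * x) 0 := by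
      simpa using (((hasDerivAt_id (0 : ℝ)).mul_const κ).div_const (tb j)).mul_const x
    have h3 := h1.mul h2.exp
    refine h3.congr_deriv ?_
    simp
    field_simp
  rw [hasDerivAt_iff_tendsto_slope] at hd
  -- the substitution
  have hy : Tendsto (fun h : ℝ => h ^ (n - j)) (𝓝[>] 0) (𝓝[≠] 0) := by
    refine tendsto_nhdsWithin_iff.2 ⟨?_, ?_⟩
    · have : Tendsto (fun h : ℝ => h ^ (n - j)) (𝓝 0) (𝓝 ((0 : ℝ) ^ (n - j))) :=
        (continuous_pow (n - j)).tendsto 0
      rw [zero_pow (by omega)] at this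
      exact this.mono_left nhdsWithin_le_nhds
    · filter_upwards [self_mem_nhdsWithin] with h hh
      exact pow_ne_zero _ (ne_of_gt hh)
  have hc := (hd.comp hy).const_mul (Real.exp (j * x))
  refine hc.congr' ?_
  filter_upwards [self_mem_nhdsWithin] with h hh
  simp only [Function.comp, slope_def_field]
  simp

/-- The limit of the remainder. -/
private theorem pert_aux_rem (n : ℕ) (x : ℝ) :
    Tendsto (fun h : ℝ => (∑ j ∈ range n, tb j * (h * Real.exp x) ^ j -
        √(1 + 2 * (h * Real.exp x))) / h ^ n)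
      (𝓝[>] 0) (𝓝 (-(tb n * Real.exp (n * x)))) := by
  obtain ⟨C, hC, htay⟩ := tay n
  rw [← tendsto_sub_nhds_zero_iff]
  refine squeeze_zero_norm' (a := fun h : ℝ => C * (h * Real.exp x ^ (n + 1))) ?_ ?_
  · -- eventually bound
    have hev : ∀ᶠ h : ℝ in 𝓝[>] 0, h * Real.exp x ≤ 1 := by
      have hc : Tendsto (fun h : ℝ => h * Real.exp x) (𝓝 0) (𝓝 (0 * Real.exp x)) :=
        (continuous_id.mul continuous_const).tendsto 0
      rw [zero_mul] at hc
      exact (hc.mono_left nhdsWithin_le_nhds).eventually (Iic_mem_nhds one_pos)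
    filter_upwards [self_mem_nhdsWithin, hev] with h hh h1
    have hh : 0 < h := hh
    have hE := Real.exp_pos x
    have := htay (h * Real.exp x) (by positivity) h1
    rw [sum_range_succ] at this
    have hpow : Real.exp (n * x) = Real.exp x ^ n := by
      rw [← Real.exp_nat_mul]
    rw [Real.norm_eq_abs, hpow]
    have e : (∑ j ∈ range n, tb j * (h * Real.exp x) ^ j - √(1 + 2 * (h * Real.exp x))) / h ^ n -
        -(tb n * Real.exp x ^ n) =
        (∑ j ∈ range n, tb j * (h * Real.exp x) ^ j + tb n * (h * Real.exp x) ^ n -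
          √(1 + 2 * (h * Real.exp x))) / h ^ n := by
      rw [mul_pow, eq_div_iff (pow_pos hh n).ne', sub_mul, div_mul_cancel₀ _ (pow_pos hh n).ne']
      ring
    rw [e, abs_div, abs_of_pos (pow_pos hh n), div_le_iff₀ (pow_pos hh n)]
    calc _ ≤ C * (h * Real.exp x) ^ (n + 1) := this
      _ = _ := by ring
  · have hc : Tendsto (fun h : ℝ => C * (h * Real.exp x ^ (n + 1))) (𝓝 0)
        (𝓝 (C * (0 * Real.exp x ^ (n + 1)))) :=
      (continuous_const.mul (continuous_id.mul continuous_const)).tendsto 0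
    rw [zero_mul, mul_zero] at hc
    exact hc.mono_left nhdsWithin_le_nhds

theorem pert_lim (n : ℕ) (l κ : ℕ → ℝ) (x : ℝ) :
    Tendsto (fun h : ℝ => (∑ j ∈ range n, h ^ j * (tb j + h ^ (n - j) * l j) *
        Real.exp ((j + h ^ (n - j) * κ j / tb j) * x) - √(1 + 2 * (h * Real.exp x))) / h ^ n)
      (𝓝[>] 0) (𝓝 (Low.G n l κ x - tb n * Real.exp (n * x))) := by
  have hsum : Tendsto (fun h : ℝ => ∑ j ∈ range n, Real.exp (j * x) *
      (((tb j + h ^ (n - j) * l j) * Real.exp (h ^ (n - j) * κ j / tb j * x) - tb j) /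
        h ^ (n - j))) (𝓝[>] 0) (𝓝 (∑ j ∈ range n, Real.exp (j * x) * (l j + κ j * x))) :=
    tendsto_finsetSum _ fun j hj => pert_aux_term n j (mem_range.1 hj) (l j) (κ j) x
  have hall := hsum.add (pert_aux_rem n x)
  have hG : (∑ j ∈ range n, Real.exp (j * x) * (l j + κ j * x)) + -(tb n * Real.exp (n * x)) =
      Low.G n l κ x - tb n * Real.exp (n * x) := by
    unfold Low.G
    rw [← sub_eq_add_neg]
    congr 1
    exact sum_congr rfl fun j _ => mul_comm _ _
  rw [hG] at hall
  refine hall.congr' ?_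
  filter_upwards [self_mem_nhdsWithin] with h hh
  have hh : 0 < h := hh
  have hterm : ∀ j ∈ range n, Real.exp (j * x) *
      (((tb j + h ^ (n - j) * l j) * Real.exp (h ^ (n - j) * κ j / tb j * x) - tb j) /
        h ^ (n - j)) = (h ^ j * (tb j + h ^ (n - j) * l j) *
        Real.exp ((j + h ^ (n - j) * κ j / tb j) * x) - tb j * (h * Real.exp x) ^ j) / h ^ n := by
    intro j hj
    have hjn := mem_range.1 hj
    have hpow : Real.exp x ^ j = Real.exp (j * x) := by
      rw [← Real.exp_nat_mul]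
    have hn : h ^ n = h ^ j * h ^ (n - j) := by
      rw [← pow_add]
      congr 1
      omega
    have hexp : Real.exp ((j + h ^ (n - j) * κ j / tb j) * x) =
        Real.exp (j * x) * Real.exp (h ^ (n - j) * κ j / tb j * x) := by
      rw [← Real.exp_add]
      congr 1
      ring
    rw [hexp, mul_pow, hpow, hn]
    have h1 : h ^ j ≠ 0 := pow_ne_zero _ hh.ne'
    have h2 : h ^ (n - j) ≠ 0 := pow_ne_zero _ hh.ne'
    rw [mul_div_assoc', div_eq_div_iff h2 (mul_ne_zero h1 h2)]
    ring
  rw [sum_congr rfl hterm, ← sum_div, sum_sub_distrib, ← add_div, sub_add_sub_cancel]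

end Fewnomial.Snake
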