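import Mathlib
import Pool.Agent.Lib.FewSnake.Defs
import Pool.Agent.Lib.FewSnake.Tay
import Pool.Agent.Lib.FewSnake.AltG
import Pool.Agent.Lib.FewSnake.PertL

/-!
# `n` terms with real exponents against `√(1 + 2 r)` (size about 110)

Take `t, l, κ, η` from `alt_G n (tb n) (tb_ne n)`.  By `pert_lim` the quotient at `x = t i` tends to
`-(-1) ^ i * η ≠ 0`.  Finitely many conditions, eventually for `h → 0+`:
* `0 < (-1) ^ i * (-η) * (... at t i)` for all `i` (multiply the limit by `h ^ n > 0`),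
* `tb j + h ^ (n - j) * l j ≠ 0` for `j < n` (limit `tb j ≠ 0`),
* `|h ^ (n - j) * κ j / tb j| < 1 / 4` for `j < n`,
* `h * exp (t i) < 1 / 2` for all `i`.
(`Filter.Eventually` and `eventually_all_finset`, `.exists` since `𝓝[>] 0` is `NeBot`.)
Fix such an `h`, `μ j = j + h ^ (n - j) * κ j / tb j`, `r i = h * exp (t i)`,
`w j = h ^ j * (tb j + h ^ (n - j) * l j) * h ^ (-μ j)` (rpow):
`w j * (r i) ^ μ j = h ^ j * (..) * exp (μ j * t i)`, because `(h * exp t) ^ μ = h ^ μ * exp (μ t)`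
(`Real.mul_rpow`, `Real.exp_mul`).
-/

set_option autoImplicit false

namespace Fewnomial.Snake

open Finset Filter
open scoped Topology

theorem alt_real (n : ℕ) (hn : 1 ≤ n) :
    ∃ (μ w : ℕ → ℝ) (r : Fin (2 * n + 1) → ℝ) (σ : ℝ),
      (∀ j < n, |μ j - j| < 1 / 4) ∧ (∀ j < n, w j ≠ 0) ∧ StrictMono r ∧
      (∀ i, 0 < r i ∧ r i < 1 / 2) ∧
      ∀ i : Fin (2 * n + 1), 0 < (-1) ^ (i : ℕ) * σ *
        (∑ j ∈ range n, w j * (r i) ^ (μ j) - √(1 + 2 * r i)) := by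
  obtain ⟨t, ht, l, κ, η, hη, hti⟩ := alt_G n (tb n) (tb_ne n)
  have e1 : ∀ᶠ h : ℝ in 𝓝[>] 0, ∀ i : Fin (2 * n + 1), 0 < (-1) ^ (i : ℕ) * (-η) *
      ((∑ j ∈ range n, h ^ j * (tb j + h ^ (n - j) * l j) *
        Real.exp ((j + h ^ (n - j) * κ j / tb j) * (t i)) -
          √(1 + 2 * (h * Real.exp (t i)))) / h ^ n) := by
    rw [eventually_all]
    intro i
    have h1 := (pert_lim n l κ (t i)).const_mul ((-1) ^ (i : ℕ) * (-η))
    have h2 : 0 < (-1) ^ (i : ℕ) * (-η) * (Low.G n l κ (t i) - tb n * Real.exp (n * (t i))) := by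
      have h3 : Low.G n l κ (t i) - tb n * Real.exp (n * t i) = -((-1) ^ (i : ℕ) * η) := by
        linarith [hti i]
      rw [h3]
      have h4 : (-1 : ℝ) ^ (i : ℕ) * (-η) * -((-1) ^ (i : ℕ) * η) =
          ((-1) ^ (i : ℕ)) ^ 2 * (η * η) := by ring
      rw [h4, ← pow_mul, mul_comm, pow_mul']
      have h5 : 0 < η * η := mul_self_pos.2 hη
      simpa using h5
    exact h1.eventually (lt_mem_nhds h2)
  have hp : ∀ j < n, Tendsto (fun h : ℝ => h ^ (n - j)) (𝓝[>] 0) (𝓝 0) := by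
    intro j hj
    have h0 : n - j ≠ 0 := by omega
    exact ((continuous_pow (n - j)).tendsto' 0 0 (zero_pow h0)).mono_left nhdsWithin_le_nhds
  have e2 : ∀ᶠ h : ℝ in 𝓝[>] 0, ∀ j ∈ range n, tb j + h ^ (n - j) * l j ≠ 0 := by
    rw [eventually_all_finset]
    intro j hj
    have h1 := ((hp j (mem_range.1 hj)).mul_const (l j)).const_add (tb j)
    rw [zero_mul, add_zero] at h1
    exact h1.eventually_ne (tb_ne j)
  have e3 : ∀ᶠ h : ℝ in 𝓝[>] 0, ∀ j ∈ range n, |h ^ (n - j) * κ j / tb j| < 1 / 4 := by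
    rw [eventually_all_finset]
    intro j hj
    have h1 := (((hp j (mem_range.1 hj)).mul_const (κ j)).div_const (tb j)).abs
    rw [zero_mul, zero_div, abs_zero] at h1
    exact h1.eventually (gt_mem_nhds (by norm_num))
  have e4 : ∀ᶠ h : ℝ in 𝓝[>] 0, ∀ i : Fin (2 * n + 1), h * Real.exp (t i) < 1 / 2 := by
    rw [eventually_all]
    intro i
    have h1 : Tendsto (fun h : ℝ => h * Real.exp (t i)) (𝓝[>] 0) (𝓝 (0 * Real.exp (t i))) :=
      ((continuous_id.mul continuous_const).tendsto 0).mono_left nhdsWithin_le_nhds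
    rw [zero_mul] at h1
    exact h1.eventually (gt_mem_nhds (by norm_num))
  have e5 : ∀ᶠ h : ℝ in 𝓝[>] 0, 0 < h := self_mem_nhdsWithin
  obtain ⟨h, ⟨⟨⟨h1, h2⟩, h3⟩, h4⟩, h5⟩ := (((e1.and e2).and e3).and e4).and e5 |>.exists
  refine ⟨fun j => j + h ^ (n - j) * κ j / tb j,
    fun j => h ^ j * (tb j + h ^ (n - j) * l j) * h ^ (-((j : ℝ) + h ^ (n - j) * κ j / tb j)),
    fun i => h * Real.exp (t i), -η, ?_, ?_, ?_, ?_, ?_⟩
  · intro j hj
    have := h3 j (mem_range.2 hj)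
    simpa using this
  · intro j hj
    exact mul_ne_zero (mul_ne_zero (pow_ne_zero _ h5.ne') (h2 j (mem_range.2 hj)))
      (Real.rpow_pos_of_pos h5 _).ne'
  · intro i j hij
    exact mul_lt_mul_of_pos_left (Real.exp_lt_exp.2 (ht hij)) h5
  · intro i
    exact ⟨mul_pos h5 (Real.exp_pos _), h4 i⟩
  · intro i
    have hs : ∀ j ∈ range n, h ^ j * (tb j + h ^ (n - j) * l j) *
        h ^ (-((j : ℝ) + h ^ (n - j) * κ j / tb j)) *
          (h * Real.exp (t i)) ^ ((j : ℝ) + h ^ (n - j) * κ j / tb j) =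
        h ^ j * (tb j + h ^ (n - j) * l j) *
        Real.exp ((j + h ^ (n - j) * κ j / tb j) * (t i)) := by
      intro j _
      rw [Real.mul_rpow h5.le (Real.exp_pos _).le, ← Real.exp_mul,
        mul_comm (t i), mul_assoc, ← mul_assoc (h ^ (-((j : ℝ) + h ^ (n - j) * κ j / tb j))),
        ← Real.rpow_add h5, neg_add_cancel, Real.rpow_zero, one_mul]
    have h6 := h1 i
    have h7 : 0 < h ^ n := pow_pos h5 n
    show 0 < (-1) ^ (i : ℕ) * (-η) * (∑ j ∈ range n, h ^ j * (tb j + h ^ (n - j) * l j) *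
        h ^ (-((j : ℝ) + h ^ (n - j) * κ j / tb j)) *
          (h * Real.exp (t i)) ^ ((j : ℝ) + h ^ (n - j) * κ j / tb j) -
            √(1 + 2 * (h * Real.exp (t i))))
    rw [sum_congr rfl hs]
    rw [← mul_div_assoc] at h6
    exact (div_pos_iff_of_pos_right h7).1 h6

end Fewnomial.Snake
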