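import Mathlib
import Pool.Agent.Lib.FewSnake.Defs
import Pool.Agent.Lib.FewSnake.AltR

/-!
# Rational exponents (size about 90)

Take `μ, w, r, σ` from `alt_real`.  Multiply by `r i > 0`:
`r ^ (μ j) * r = r ^ (μ j + 1)` (`Real.rpow_add_one`), `μ j + 1 > 0`.
For `Q → ∞` put `E j = ⌊(μ j + 1) * Q⌋₊`; then `(E j : ℝ) / Q → μ j + 1`
(`tendsto_nat_floor_mul_div_atTop` after `mul_comm`), hence for every `i` the number
`∑ w j * (r i) ^ ((E j : ℝ) / Q) - r i * √(1 + 2 * r i)` tends to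
`r i * (∑ w j * (r i) ^ μ j - √(1 + 2 * r i))` (continuity of `rpow` in the exponent,
`Real.continuous_const_rpow` or `Filter.Tendsto.const_rpow`), and the `2 n + 1` strict inequalities
hold for large `Q`.  The `E j` are distinct for `Q ≥ 4`: `μ i + 1` and `μ j + 1` differ by at least
`1 / 2` for `i ≠ j`, so `(μ i + 1) * Q` and `(μ j + 1) * Q` differ by at least `2`.
-/

set_option autoImplicit false

namespace Fewnomial.Snake

private theorem floor_ne {μ : ℕ → ℝ} {n : ℕ} (hμ : ∀ j < n, |μ j - j| < 1 / 4) {Q : ℕ}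
    (hQ : 4 ≤ Q) {i j : ℕ} (hi : i < n) (hj : j < n) (hij : i < j) :
    ⌊(μ i + 1) * (Q : ℝ)⌋₊ < ⌊(μ j + 1) * (Q : ℝ)⌋₊ := by
  have h1 := abs_lt.1 (hμ i hi)
  have h2 := abs_lt.1 (hμ j hj)
  have hij' : (i : ℝ) + 1 ≤ j := by exact_mod_cast hij
  have hQ' : (4 : ℝ) ≤ Q := by exact_mod_cast hQ
  have hi0 : (0 : ℝ) ≤ i := Nat.cast_nonneg _
  have h3 : (0 : ℝ) ≤ (μ i + 1) * Q := by
    apply mul_nonneg <;> linarith
  have h4 := Nat.floor_le h3
  have h5 := Nat.lt_floor_add_one ((μ j + 1) * (Q : ℝ))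
  have h6 : (μ i + 1) * (Q : ℝ) + 2 ≤ (μ j + 1) * (Q : ℝ) := by nlinarith
  have h7 : (⌊(μ i + 1) * (Q : ℝ)⌋₊ : ℝ) < (⌊(μ j + 1) * (Q : ℝ)⌋₊ : ℝ) := by linarith
  exact_mod_cast h7

theorem alt_W (n : ℕ) (hn : 1 ≤ n) :
    ∃ (Q : ℕ) (E : ℕ → ℕ) (w : ℕ → ℝ) (r : Fin (2 * n + 1) → ℝ) (σ : ℝ), 1 ≤ Q ∧
      (∀ i < n, ∀ j < n, E i = E j → i = j) ∧ (∀ j < n, w j ≠ 0) ∧ StrictMono r ∧
      (∀ i, 0 < r i ∧ r i < 1 / 2) ∧
      ∀ i : Fin (2 * n + 1), 0 < (-1) ^ (i : ℕ) * σ *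
        (W n Q E w (r i) - r i * √(1 + 2 * r i)) := by
  obtain ⟨μ, w, r, σ, hμ, hw, hr, hr2, hsgn⟩ := alt_real n hn
  have hev : ∀ i : Fin (2 * n + 1), ∀ᶠ Q : ℕ in Filter.atTop, 0 < (-1) ^ (i : ℕ) * σ *
      (W n Q (fun j => ⌊(μ j + 1) * (Q : ℝ)⌋₊) w (r i) - r i * √(1 + 2 * r i)) := by
    intro i
    have hri := (hr2 i).1
    have h1 : Filter.Tendsto (fun Q : ℕ => W n Q (fun j => ⌊(μ j + 1) * (Q : ℝ)⌋₊) w (r i))
        Filter.atTop (nhds (∑ j ∈ Finset.range n, w j * (r i) ^ (μ j + 1))) := by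
      unfold W
      apply tendsto_finsetSum
      intro j hj
      have hjn := Finset.mem_range.1 hj
      have h2 := abs_lt.1 (hμ j hjn)
      have hj0 : (0 : ℝ) ≤ j := Nat.cast_nonneg _
      have h3 : (0 : ℝ) ≤ μ j + 1 := by linarith
      have h4 : Filter.Tendsto (fun Q : ℕ => ((⌊(μ j + 1) * (Q : ℝ)⌋₊ : ℕ) : ℝ) / (Q : ℝ))
          Filter.atTop (nhds (μ j + 1)) :=
        (tendsto_nat_floor_mul_div_atTop h3).comp tendsto_natCast_atTop_atTop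
      exact (((Real.continuous_const_rpow hri.ne').tendsto _).comp h4).const_mul _
    have h5 := (h1.sub_const (r i * √(1 + 2 * r i))).const_mul ((-1) ^ (i : ℕ) * σ)
    have h6 : 0 < (-1) ^ (i : ℕ) * σ *
        (∑ j ∈ Finset.range n, w j * (r i) ^ (μ j + 1) - r i * √(1 + 2 * r i)) := by
      have h7 : ∑ j ∈ Finset.range n, w j * (r i) ^ (μ j + 1) - r i * √(1 + 2 * r i) =
          r i * (∑ j ∈ Finset.range n, w j * (r i) ^ (μ j) - √(1 + 2 * r i)) := by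
        rw [mul_sub, Finset.mul_sum]
        congr 1
        apply Finset.sum_congr rfl
        intro j _
        rw [Real.rpow_add_one hri.ne']
        ring
      rw [h7]
      have h8 := mul_pos hri (hsgn i)
      calc 0 < r i * ((-1) ^ (i : ℕ) * σ *
            (∑ j ∈ Finset.range n, w j * (r i) ^ (μ j) - √(1 + 2 * r i))) := h8
        _ = _ := by ring
    exact h5.eventually (lt_mem_nhds h6)
  have hall := Filter.eventually_all.2 hev
  obtain ⟨Q, hQ1, hQ2⟩ := (hall.and (Filter.eventually_ge_atTop 4)).exists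
  refine ⟨Q, fun j => ⌊(μ j + 1) * (Q : ℝ)⌋₊, w, r, σ, by omega, ?_, hw, hr, hr2, hQ1⟩
  intro i hi j hj hij
  by_contra hne
  rcases lt_or_gt_of_ne hne with h | h
  · exact absurd hij (floor_ne hμ hQ2 hi hj h).ne
  · exact absurd hij (floor_ne hμ hQ2 hj hi h).ne'

end Fewnomial.Snake
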