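import Mathlib
import Pool.Agent.Lib.MP_4cba3d_ag.Defs
import Pool.Agent.Lib.MP_4cba3d_ag.LowPoly
import Pool.Agent.Lib.MP_4cba3d_ag.LowCount

/-!
# Counting simple solutions along a graph (size about 200)

`f₁ = ∑ monomial (ex (p₁ i) (q₁ i)) (c₁ i)`, `f₂` similarly (`Low.ex`, `Low.support_card_sum`: the
supports have the right cardinalities); `eval ![u, v] f = ∑ c i * u ^ p i * v ^ q i`.
`Φ v = ∑ i, c₂ i * U v ^ p₂ i * v ^ q₂ i` and `m v = U v ^ p₂ i₀ * v ^ q₂ i₀ > 0` are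
differentiable at every `v > 0`.
1. Generic constant (as in `Low.sard_weight`, whose proof can be copied with the hypothesis on `m`
   only for `x ∈ I = Ioi 0`): there is an arbitrarily small `c > 0` such that
   `Φ x - c * m x = 0 → Φ' x - c * m' x ≠ 0` for all `x > 0`.  Take `c` so small that the signs at the
   finitely many points `a p`, `b p` are preserved and `c₂ i₀ - c ≠ 0`.
2. `f₂' = ` the polynomial with `c₂ i₀` replaced by `c₂ i₀ - c`; on the graph it is `Φ - c m`.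
3. Intermediate value theorem on `[a p, b p]`: a zero `z p` with `a p < z p < b p`; `z` is injective
   by `hd`.
4. `![U (z p), z p] ∈ positiveSimple f₁ f₂'`: the Jacobian.  Let `α = ∂₀ f₁`, `β = ∂₁ f₁`,
   `γ = ∂₀ f₂'`, `δ = ∂₁ f₂'` at the point.  By the chain rule (`Low.hasDerivAt_eval` along
   `s ↦ ![U s, s]`): `α U' + β = 0` (`h1`, `f₁ = 0` along the graph) and `γ U' + δ = (Φ - c m)' ≠ 0`;
   along `s ↦ ![s, v]`: `α ≠ 0` (`h1'`).  Hence `α δ - β γ = α (δ + U' γ) ≠ 0`.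
5. `encard` of the set is at least `Fintype.card P` (`Set.encard_le_encard`, injective image), and
   `N` is a supremum (`le_iSup_of_le`), as at the end of `Low.count`.
-/

set_option autoImplicit false

namespace Fewnomial.Snake

open Filter Set MvPolynomial
open scoped Topology

private lemma eval_sum_ex {ι : Type} [Fintype ι] (p q : ι → ℕ) (c : ι → ℝ) (u v : ℝ) :
    eval (![u, v] : Fin 2 → ℝ) (∑ i, monomial (Low.ex (p i) (q i)) (c i)) =
      ∑ i, c i * u ^ p i * v ^ q i := by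
  rw [map_sum]
  refine Finset.sum_congr rfl fun i _ => ?_
  have h1 : (monomial (Low.ex (p i) (q i)) (c i) : MvPolynomial (Fin 2) ℝ) =
      C (c i) * X 0 ^ p i * X 1 ^ q i := by
    rw [C_mul_X_pow_eq_monomial, X_pow_eq_monomial, monomial_mul, mul_one]
    rfl
  rw [h1]
  simp

private lemma sard_weight' {F F' m m' : ℝ → ℝ} {I : Set ℝ} (hF : ∀ x ∈ I, HasDerivAt F (F' x) x)
    (hm : ∀ x ∈ I, HasDerivAt m (m' x) x) (hm0 : ∀ x ∈ I, m x ≠ 0) {δ : ℝ} (hδ : 0 < δ) :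
    ∃ c, 0 < c ∧ c < δ ∧ ∀ x ∈ I, F x - c * m x = 0 → F' x - c * m' x ≠ 0 := by
  set H : ℝ → ℝ := fun x => F x / m x with hH
  set H' : ℝ → ℝ := fun x => (F' x * m x - F x * m' x) / m x ^ 2 with hH'
  have hHd : ∀ x ∈ I, HasDerivAt H (H' x) x := fun x hx => (hF x hx).div (hm x hx) (hm0 x hx)
  set Sc : Set ℝ := {x | x ∈ I ∧ H' x = 0} with hSc
  have hvol : MeasureTheory.volume (H '' Sc) = 0 := by
    apply MeasureTheory.addHaar_image_eq_zero_of_det_fderivWithin_eq_zero MeasureTheory.volume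
      (f' := fun x => ContinuousLinearMap.toSpanSingleton ℝ (H' x))
    · intro x hx
      exact (hHd x hx.1).hasFDerivAt.hasFDerivWithinAt
    · intro x hx
      rw [hx.2]
      have : (ContinuousLinearMap.toSpanSingleton ℝ (0 : ℝ) : ℝ →L[ℝ] ℝ) = 0 := by
        ext; simp
      rw [this]
      simp [ContinuousLinearMap.det]
  have hne : ∃ c ∈ Ioo (0 : ℝ) δ, c ∉ H '' Sc := by
    by_contra hcon
    push Not at hcon
    have h1 : MeasureTheory.volume (Ioo (0 : ℝ) δ) ≤ 0 := by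
      rw [← hvol]
      exact MeasureTheory.measure_mono hcon
    rw [Real.volume_Ioo, sub_zero] at h1
    have h2 : 0 < ENNReal.ofReal δ := ENNReal.ofReal_pos.2 hδ
    exact absurd h1 (not_le.2 h2)
  obtain ⟨c, hc, hcn⟩ := hne
  refine ⟨c, hc.1, hc.2, fun x hx h0 h1 => hcn ⟨x, ⟨hx, ?_⟩, ?_⟩⟩
  · have h2 : F x = c * m x := by linarith
    have h3 : F' x = c * m' x := by linarith
    simp only [hH']
    rw [h2, h3]
    have : c * m' x * m x - c * m x * m' x = 0 := by ring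
    rw [this, zero_div]
  · simp only [hH]
    rw [div_eq_iff (hm0 x hx)]
    linarith

/-- the criterion for simple solutions on the graph of `U` -/
private lemma mem_simple (f1 f2 : MvPolynomial (Fin 2) ℝ) (U : ℝ → ℝ) (z : ℝ) (hz : 0 < z)
    (hU : 0 < U z) (hUd : DifferentiableAt ℝ U z)
    (h1 : ∀ᶠ s in 𝓝 z, eval (![U s, s] : Fin 2 → ℝ) f1 = 0)
    (h2 : eval (![U z, z] : Fin 2 → ℝ) f2 = 0) (d : ℝ)
    (hd : HasDerivAt (fun s => eval (![U s, s] : Fin 2 → ℝ) f2) d z) (hd0 : d ≠ 0) (e : ℝ)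
    (he : HasDerivAt (fun s => eval (![s, z] : Fin 2 → ℝ) f1) e (U z)) (he0 : e ≠ 0) :
    (![U z, z] : Fin 2 → ℝ) ∈ positiveSimple f1 f2 := by
  have hcur : ∀ i, HasDerivAt (fun s => (![U s, s] : Fin 2 → ℝ) i)
      ((![deriv U z, 1] : Fin 2 → ℝ) i) z := by
    intro i
    fin_cases i
    · simpa using hUd.hasDerivAt
    · simpa using hasDerivAt_id' z
  have hcur' : ∀ i, HasDerivAt (fun s => (![s, z] : Fin 2 → ℝ) i)
      ((![1, 0] : Fin 2 → ℝ) i) (U z) := by
    intro i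
    fin_cases i
    · simpa using hasDerivAt_id' (U z)
    · simpa using hasDerivAt_const (U z) z
  have ha := Low.hasDerivAt_eval f1 (fun s => ![U s, s]) _ z hcur
  have hb := Low.hasDerivAt_eval f2 (fun s => ![U s, s]) _ z hcur
  have hc := Low.hasDerivAt_eval f1 (fun s => ![s, z]) _ (U z) hcur'
  have ha0 : HasDerivAt (fun s => eval (![U s, s] : Fin 2 → ℝ) f1) 0 z :=
    (hasDerivAt_const z (0 : ℝ)).congr_of_eventuallyEq h1
  have e1 := ha.unique ha0
  have e2 := hb.unique hd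
  have e3 := hc.unique he
  simp only [Matrix.cons_val_zero, Matrix.cons_val_one, mul_one, mul_zero, add_zero] at e1 e2 e3
  refine ⟨by simpa using hU, by simpa using hz, h1.self_of_nhds, h2, ?_⟩
  intro hJ
  rw [map_sub, map_mul, map_mul] at hJ
  have h3 : e * d = 0 := by
    rw [← e2, ← e3]
    linear_combination hJ + (eval (![U z, z] : Fin 2 → ℝ) (pderiv 0 f2)) * e1
  rcases mul_eq_zero.1 h3 with h | h
  · exact he0 h
  · exact hd0 h

theorem count_graph {ι₁ ι₂ P : Type} [Fintype ι₁] [DecidableEq ι₁] [Fintype ι₂] [DecidableEq ι₂]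
    [Fintype P] (p₁ q₁ : ι₁ → ℕ) (c₁ : ι₁ → ℝ)
    (hi₁ : ∀ i j, p₁ i = p₁ j → q₁ i = q₁ j → i = j) (hc₁ : ∀ i, c₁ i ≠ 0)
    (p₂ q₂ : ι₂ → ℕ) (c₂ : ι₂ → ℝ)
    (hi₂ : ∀ i j, p₂ i = p₂ j → q₂ i = q₂ j → i = j) (hc₂ : ∀ i, c₂ i ≠ 0) (i₀ : ι₂)
    (U : ℝ → ℝ) (hU : ∀ v, 0 < v → 0 < U v) (hUd : ∀ v, 0 < v → DifferentiableAt ℝ U v)
    (h1 : ∀ v, 0 < v → ∑ i, c₁ i * (U v) ^ p₁ i * v ^ q₁ i = 0)
    (h1' : ∀ v, 0 < v → ∑ i, c₁ i * ((p₁ i : ℝ) * (U v) ^ (p₁ i - 1)) * v ^ q₁ i ≠ 0)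
    (a b : P → ℝ) (ha : ∀ p, 0 < a p) (hab : ∀ p, a p < b p)
    (hd : ∀ p q, p ≠ q → b p ≤ a q ∨ b q ≤ a p)
    (hs : ∀ p, (∑ i, c₂ i * (U (a p)) ^ p₂ i * (a p) ^ q₂ i) *
      (∑ i, c₂ i * (U (b p)) ^ p₂ i * (b p) ^ q₂ i) < 0) :
    ((Fintype.card P : ℕ) : ℕ∞) ≤ N (Fintype.card ι₁) (Fintype.card ι₂) := by
  classical
  set Φ : ℝ → ℝ := fun v => ∑ i, c₂ i * (U v) ^ p₂ i * v ^ q₂ i with hΦ
  set m : ℝ → ℝ := fun v => (U v) ^ p₂ i₀ * v ^ q₂ i₀ with hm
  have hmpos : ∀ v, 0 < v → 0 < m v := fun v hv =>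
    mul_pos (pow_pos (hU v hv) _) (pow_pos hv _)
  have hΦd : ∀ v, 0 < v → DifferentiableAt ℝ Φ v := by
    intro v hv
    apply DifferentiableAt.fun_sum
    intro i _
    exact (((hUd v hv).pow _).const_mul _).mul (differentiableAt_id.pow _)
  have hmd : ∀ v, 0 < v → DifferentiableAt ℝ m v := fun v hv =>
    ((hUd v hv).pow _).mul (differentiableAt_id.pow _)
  -- small constants
  have hev1 : ∀ᶠ c in 𝓝 (0 : ℝ), ∀ p : P,
      (Φ (a p) - c * m (a p)) * (Φ (b p) - c * m (b p)) < 0 := by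
    rw [eventually_all]
    intro p
    have hc : Continuous fun c : ℝ => (Φ (a p) - c * m (a p)) * (Φ (b p) - c * m (b p)) := by
      fun_prop
    apply hc.continuousAt.eventually_lt continuousAt_const
    simp only [zero_mul, sub_zero]
    exact hs p
  have hev2 : ∀ᶠ c in 𝓝 (0 : ℝ), c₂ i₀ - c ≠ 0 := by
    have hc : Continuous fun c : ℝ => c₂ i₀ - c := by fun_prop
    apply hc.continuousAt.eventually_ne
    rw [sub_zero]
    exact hc₂ i₀
  obtain ⟨δ, hδ, hball⟩ := Metric.eventually_nhds_iff.1 (hev1.and hev2)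
  obtain ⟨c, hc0, hcδ, hcs⟩ := sard_weight' (I := Ioi (0 : ℝ))
    (fun x hx => (hΦd x hx).hasDerivAt) (fun x hx => (hmd x hx).hasDerivAt)
    (fun x hx => (hmpos x hx).ne') hδ
  obtain ⟨hsc, hcne⟩ := hball (show dist c 0 < δ by
    rw [Real.dist_eq, sub_zero, abs_of_pos hc0]; exact hcδ)
  set c₂' : ι₂ → ℝ := fun i => c₂ i - if i = i₀ then c else 0 with hc₂'
  have hΦ' : ∀ v, ∑ i, c₂' i * (U v) ^ p₂ i * v ^ q₂ i = Φ v - c * m v := by
    intro v
    have h : ∀ i, c₂' i * (U v) ^ p₂ i * v ^ q₂ i = c₂ i * (U v) ^ p₂ i * v ^ q₂ i -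
        (if i = i₀ then c * m v else 0) := by
      intro i
      simp only [hc₂', hm]
      split_ifs with hi
      · subst hi
        ring
      · ring
    simp only [h, Finset.sum_sub_distrib, Finset.sum_ite_eq', Finset.mem_univ, if_true, hΦ]
  have hc₂'ne : ∀ i, c₂' i ≠ 0 := by
    intro i
    simp only [hc₂']
    split_ifs with hi
    · rw [hi]
      exact hcne
    · rw [sub_zero]
      exact hc₂ i
  set f1 : MvPolynomial (Fin 2) ℝ := ∑ i, monomial (Low.ex (p₁ i) (q₁ i)) (c₁ i) with hf1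
  set f2 : MvPolynomial (Fin 2) ℝ := ∑ i, monomial (Low.ex (p₂ i) (q₂ i)) (c₂' i) with hf2
  have hcard1 : f1.support.card = Fintype.card ι₁ :=
    Low.support_card_sum _ (fun i j h => hi₁ i j (Low.ex_inj h).1 (Low.ex_inj h).2) c₁ hc₁
  have hcard2 : f2.support.card = Fintype.card ι₂ :=
    Low.support_card_sum _ (fun i j h => hi₂ i j (Low.ex_inj h).1 (Low.ex_inj h).2) c₂' hc₂'ne
  -- the zeros
  have hz : ∀ p : P, ∃ z, a p < z ∧ z < b p ∧ Φ z - c * m z = 0 := by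
    intro p
    have hcont : ContinuousOn (fun v => Φ v - c * m v) (Icc (a p) (b p)) := by
      intro x hx
      have hx0 : 0 < x := (ha p).trans_le hx.1
      exact ((hΦd x hx0).continuousAt.sub
        (continuousAt_const.mul (hmd x hx0).continuousAt)).continuousWithinAt
    rcases mul_neg_iff.1 (hsc p) with ⟨h2, h3⟩ | ⟨h2, h3⟩
    · obtain ⟨z, hz, hz0⟩ := intermediate_value_Ioo' (hab p).le hcont ⟨h3, h2⟩
      exact ⟨z, hz.1, hz.2, hz0⟩
    · obtain ⟨z, hz, hz0⟩ := intermediate_value_Ioo (hab p).le hcont ⟨h2, h3⟩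
      exact ⟨z, hz.1, hz.2, hz0⟩
  choose z hza hzb hz0 using hz
  have hzinj : Function.Injective z := by
    intro p q hpq
    by_contra hne
    rcases hd p q hne with h | h
    · have := hzb p
      have := hza q
      linarith
    · have := hzb q
      have := hza p
      linarith
  -- membership
  have hmem : ∀ p, (![U (z p), z p] : Fin 2 → ℝ) ∈ positiveSimple f1 f2 := by
    intro p
    have hzp : 0 < z p := (ha p).trans (hza p)
    have hf1e : ∀ u v, eval (![u, v] : Fin 2 → ℝ) f1 = ∑ i, c₁ i * u ^ p₁ i * v ^ q₁ i :=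
      fun u v => eval_sum_ex p₁ q₁ c₁ u v
    have hf2e : ∀ v, eval (![U v, v] : Fin 2 → ℝ) f2 = Φ v - c * m v := by
      intro v
      rw [hf2, eval_sum_ex, hΦ']
    refine mem_simple f1 f2 U (z p) hzp (hU _ hzp) (hUd _ hzp) ?_ (by rw [hf2e]; exact hz0 p)
      (deriv Φ (z p) - c * deriv m (z p)) ?_ (hcs (z p) hzp (hz0 p))
      (∑ i, c₁ i * ((p₁ i : ℝ) * (U (z p)) ^ (p₁ i - 1)) * (z p) ^ q₁ i) ?_ (h1' _ hzp)
    · filter_upwards [Ioi_mem_nhds hzp] with s hs0
      rw [hf1e]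
      exact h1 s hs0
    · have e : (fun s => eval (![U s, s] : Fin 2 → ℝ) f2) = fun s => Φ s - c * m s := by
        funext s
        exact hf2e s
      rw [e]
      exact (hΦd _ hzp).hasDerivAt.sub ((hmd _ hzp).hasDerivAt.const_mul c)
    · have e : (fun s => eval (![s, z p] : Fin 2 → ℝ) f1) =
          fun s => ∑ i, c₁ i * s ^ p₁ i * (z p) ^ q₁ i := by
        funext s
        exact hf1e s _
      rw [e]
      apply HasDerivAt.fun_sum
      intro i _
      exact ((hasDerivAt_pow (p₁ i) (U (z p))).const_mul (c₁ i)).mul_const _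
  have hinj : Function.Injective (fun p => (![U (z p), z p] : Fin 2 → ℝ)) := by
    intro p q h
    have h1 := congrFun h 1
    simp only [Matrix.cons_val_one] at h1
    exact hzinj h1
  have hsub : ((Finset.univ.image (fun p => (![U (z p), z p] : Fin 2 → ℝ)) :
      Finset (Fin 2 → ℝ)) : Set (Fin 2 → ℝ)) ⊆ positiveSimple f1 f2 := by
    intro q hq
    rw [Finset.mem_coe, Finset.mem_image] at hq
    obtain ⟨p, _, rfl⟩ := hq
    exact hmem p
  have hle : ((Fintype.card P : ℕ) : ℕ∞) ≤ (positiveSimple f1 f2).encard := by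
    rw [← Finset.card_univ, ← Finset.card_image_of_injective _ hinj,
      ← Set.encard_coe_eq_coe_finsetCard]
    exact Set.encard_le_encard hsub
  refine hle.trans ?_
  unfold N
  exact le_iSup_of_le f1 (le_iSup_of_le f2 (le_iSup_of_le hcard1 (le_iSup_of_le hcard2 le_rfl)))

end Fewnomial.Snake
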