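import Mathlib
import Pool.Agent.Lib.FewSnake.Defs

/-!
# The limit of `R` at a location (size about 110)

`R k e ε 0 v = A k ε v / B k ε v`.  At `v = τ / ε ^ j` with `ε > 0`:
`ε ^ (2 * j * (j + 1)) * A k ε v = ∑ i < k, ε ^ (2 * (i - j) ^ 2) * τ ^ (4 * i + 2)` and
`ε ^ (2 * j * (j + 1)) * B k ε v = ∑ i ≤ k, ε ^ (2 * ((i - j) * (i - j - 1))) * τ ^ (4 * i)`
(integer exponents, both nonnegative, zero iff `i = j`, resp. `i = j` or `i = j + 1`; write them as
zpow or with `Int.toNat`), because `2 i ^ 2 - j (4 i + 2) = 2 (i - j) ^ 2 - 2 j (j + 1)` and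
`2 i (i - 1) - 4 i j = 2 (i - j) (i - j - 1) - 2 j (j + 1)`.
So numerator and denominator tend to `τ ^ (4 * j + 2)` and `τ ^ (4 * j) + τ ^ (4 * j + 4)`
(`tendsto_finset_sum`, `Finset.sum_ite_eq`), the quotient to `τ ^ 2 / (1 + τ ^ 4)`.
-/

set_option autoImplicit false

namespace Fewnomial.Snake

open Finset Filter
open scoped Topology

private lemma limR_term (ε τ : ℝ) (hε : 0 < ε) (p q m n j : ℕ) (h : p + m = q + j * n) :
    ε ^ m * (ε ^ p * (τ / ε ^ j) ^ n) = ε ^ q * τ ^ n := by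
  have h0 : ε ^ (j * n) ≠ 0 := pow_ne_zero _ hε.ne'
  rw [div_pow, ← pow_mul]
  have h1 : ε ^ m * ε ^ p = ε ^ q * ε ^ (j * n) := by
    rw [← pow_add, ← pow_add, ← h, add_comm]
  field_simp
  linear_combination τ ^ n * h1

/-- exponent in the numerator -/
private def ea (j i : ℕ) : ℕ := (2 * ((i : ℤ) - j) ^ 2).toNat

/-- exponent in the denominator -/
private def eb (j i : ℕ) : ℕ := (2 * (((i : ℤ) - j) * ((i : ℤ) - j - 1))).toNat

private lemma ea_eq (j i : ℕ) : 2 * i ^ 2 + 2 * j * (j + 1) = ea j i + j * (4 * i + 2) := by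
  have h : ((ea j i : ℕ) : ℤ) = 2 * ((i : ℤ) - j) ^ 2 := by
    unfold ea; exact Int.toNat_of_nonneg (by positivity)
  zify
  rw [h]; ring

private lemma eb_nonneg (j i : ℕ) : 0 ≤ ((i : ℤ) - j) * ((i : ℤ) - j - 1) := by
  rcases le_or_gt ((i : ℤ) - j) 0 with h | h
  · exact mul_nonneg_of_nonpos_of_nonpos h (by omega)
  · exact mul_nonneg h.le (by omega)

private lemma eb_cast (j i : ℕ) : ((eb j i : ℕ) : ℤ) = 2 * (((i : ℤ) - j) * ((i : ℤ) - j - 1)) := by
  unfold eb; exact Int.toNat_of_nonneg (by have := eb_nonneg j i; omega)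

private lemma eb_eq (j i : ℕ) :
    2 * (i * (i - 1)) + 2 * j * (j + 1) = eb j i + j * (4 * i) := by
  have h := eb_cast j i
  rcases i with _ | i
  · zify
    rw [h]; push_cast; ring
  · zify
    rw [h]
    simp only [Nat.add_sub_cancel, Nat.cast_add, Nat.cast_one]
    push_cast
    ring

private lemma ea_zero (j i : ℕ) : ea j i = 0 ↔ i = j := by
  have h : ((ea j i : ℕ) : ℤ) = 2 * ((i : ℤ) - j) ^ 2 := by
    unfold ea; exact Int.toNat_of_nonneg (by positivity)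
  constructor
  · intro h0
    rw [h0] at h
    have h2 : ((i : ℤ) - j) ^ 2 = 0 := by
      have : ((0 : ℕ) : ℤ) = 0 := rfl
      rw [this] at h
      linarith
    have h3 : (i : ℤ) - j = 0 := by simpa using h2
    omega
  · intro h0
    subst h0
    simp [ea]

private lemma eb_zero (j i : ℕ) : eb j i = 0 ↔ (i = j ∨ i = j + 1) := by
  have h := eb_cast j i
  constructor
  · intro h0
    rw [h0] at h
    have h2 : ((i : ℤ) - j) * ((i : ℤ) - j - 1) = 0 := by
      have : ((0 : ℕ) : ℤ) = 0 := rfl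
      rw [this] at h
      linarith
    rcases mul_eq_zero.mp h2 with h3 | h3
    · left; omega
    · right; omega
  · intro h0
    rcases h0 with h0 | h0
    · subst h0; simp [eb]
    · subst h0; simp [eb]

private lemma tend_pow (n : ℕ) (c : ℝ) :
    Tendsto (fun ε : ℝ => ε ^ n * c) (𝓝[>] 0) (𝓝 (if n = 0 then c else 0)) := by
  have h : Tendsto (fun ε : ℝ => ε ^ n * c) (𝓝 0) (𝓝 ((0 : ℝ) ^ n * c)) :=
    (Continuous.tendsto (by fun_prop) 0)
  have h2 := h.mono_left (nhdsWithin_le_nhds (s := Set.Ioi (0 : ℝ)))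
  by_cases hn : n = 0
  · subst hn; simpa using h2
  · simpa [hn, zero_pow hn] using h2

theorem lim_R (k e j : ℕ) (hj : j < k) (τ : ℝ) (hτ : 0 < τ) :
    Tendsto (fun ε : ℝ => R k e ε 0 (τ / ε ^ j)) (𝓝[>] 0) (𝓝 (rho τ)) := by
  have hA : Tendsto (fun ε : ℝ => ∑ i ∈ range k, ε ^ (ea j i) * τ ^ (4 * i + 2)) (𝓝[>] 0)
      (𝓝 (∑ i ∈ range k, if ea j i = 0 then τ ^ (4 * i + 2) else 0)) :=
    tendsto_finsetSum _ (fun i _ => tend_pow _ _)
  have hB : Tendsto (fun ε : ℝ => ∑ i ∈ range (k + 1), ε ^ (eb j i) * τ ^ (4 * i)) (𝓝[>] 0)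
      (𝓝 (∑ i ∈ range (k + 1), if eb j i = 0 then τ ^ (4 * i) else 0)) :=
    tendsto_finsetSum _ (fun i _ => tend_pow _ _)
  have hA' : (∑ i ∈ range k, if ea j i = 0 then τ ^ (4 * i + 2) else 0) = τ ^ (4 * j + 2) := by
    simp only [ea_zero]
    rw [Finset.sum_ite_eq' (range k) j (fun i => τ ^ (4 * i + 2))]
    simp [hj]
  have hB' : (∑ i ∈ range (k + 1), if eb j i = 0 then τ ^ (4 * i) else 0)
      = τ ^ (4 * j) + τ ^ (4 * (j + 1)) := by
    have h1 : ∀ i ∈ range (k + 1), (if eb j i = 0 then τ ^ (4 * i) else 0)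
        = (if i = j then τ ^ (4 * i) else 0) + (if i = j + 1 then τ ^ (4 * i) else 0) := by
      intro i _
      simp only [eb_zero]
      by_cases h1 : i = j
      · subst h1; simp
      · by_cases h2 : i = j + 1
        · subst h2; simp
        · simp [h1, h2]
    rw [Finset.sum_congr rfl h1, Finset.sum_add_distrib,
      Finset.sum_ite_eq' (range (k + 1)) j (fun i => τ ^ (4 * i)),
      Finset.sum_ite_eq' (range (k + 1)) (j + 1) (fun i => τ ^ (4 * i))]
    have h2 : j ∈ range (k + 1) := by simp; omega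
    have h3 : j + 1 ∈ range (k + 1) := by simp; omega
    rw [if_pos h2, if_pos h3]
  rw [hA'] at hA
  rw [hB'] at hB
  have hne : τ ^ (4 * j) + τ ^ (4 * (j + 1)) ≠ 0 := by positivity
  have hq := hA.div hB hne
  have hval : τ ^ (4 * j + 2) / (τ ^ (4 * j) + τ ^ (4 * (j + 1))) = rho τ := by
    unfold rho
    have h1 : τ ^ (4 * j) ≠ 0 := by positivity
    have h2 : (1 + τ ^ 4) ≠ 0 := by positivity
    have h3 : τ ^ (4 * j + 2) = τ ^ (4 * j) * τ ^ 2 := by rw [pow_add]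
    have h4 : τ ^ (4 * j) + τ ^ (4 * (j + 1)) = τ ^ (4 * j) * (1 + τ ^ 4) := by ring
    rw [h3, h4, mul_div_mul_left _ _ h1]
  rw [hval] at hq
  refine hq.congr' ?_
  filter_upwards [self_mem_nhdsWithin] with ε hε
  have hε' : 0 < ε := hε
  have hc : ε ^ (2 * j * (j + 1)) ≠ 0 := pow_ne_zero _ hε'.ne'
  have eA : ε ^ (2 * j * (j + 1)) * A k ε (τ / ε ^ j)
      = ∑ i ∈ range k, ε ^ (ea j i) * τ ^ (4 * i + 2) := by
    unfold A
    rw [Finset.mul_sum]
    exact Finset.sum_congr rfl (fun i _ => limR_term ε τ hε' _ _ _ _ _ (ea_eq j i))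
  have eB : ε ^ (2 * j * (j + 1)) * B k ε (τ / ε ^ j)
      = ∑ i ∈ range (k + 1), ε ^ (eb j i) * τ ^ (4 * i) := by
    unfold B
    rw [Finset.mul_sum]
    exact Finset.sum_congr rfl (fun i _ => limR_term ε τ hε' _ _ _ _ _ (eb_eq j i))
  show (∑ i ∈ range k, ε ^ (ea j i) * τ ^ (4 * i + 2)) /
    (∑ i ∈ range (k + 1), ε ^ (eb j i) * τ ^ (4 * i)) = R k e ε 0 (τ / ε ^ j)
  rw [← eA, ← eB, mul_div_mul_left _ _ hc]
  simp [R]

end Fewnomial.Snake
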