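import Mathlib
import Pool.Agent.Lib.FewSnake.Defs

/-!
# Quotients of monomials at a location (size about 130)

Pure algebra: all sides are `ε ^ (integer) * τ ^ (..) * s ^ (..)`.  Exponent of `ε` in `ratio_e`:
`j - j0 + 2 i (i-1) - 2 (j+1) j - 4 j0 (i - j - 1)`, which is `ze i j j0`; in `ratio_o`:
`j - j0 + 2 i ^ 2 - 2 (j+1) j - j0 (4 i + 2 - 4 (j + 1))`, which is `zo i j j0`.
(Convert natural powers to `zpow`; for `i = 0` note `i * (i - 1) = 0`.)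
`ze_pos` etc.: put `a = i - j0` etc. and use `nlinarith`, or natural numbers: for `j0 ≤ j`, `j + 1 < i`
the function `x (x - 1)` is increasing; for `j < j0`, `i ≤ j` write `j0 = j + d`, `i = j - c`:
`ze = -d + 2 ((d + c) (d + c + 1) - d (d - 1)) ≥ 3 d`, `zo = -d + 2 ((d + c) ^ 2 - d (d - 1)) ≥ d`.
-/

set_option autoImplicit false

namespace Fewnomial.Snake

/-- exponent of `ε` for the even monomials -/
def ze (i j j0 : ℕ) : ℤ :=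
  ((j : ℤ) - j0) + 2 * (((i : ℤ) - j0) * ((i : ℤ) - j0 - 1) - ((j : ℤ) + 1 - j0) * ((j : ℤ) - j0))

/-- exponent of `ε` for the odd monomials -/
def zo (i j j0 : ℕ) : ℤ :=
  ((j : ℤ) - j0) + 2 * (((i : ℤ) - j0) ^ 2 - ((j : ℤ) + 1 - j0) * ((j : ℤ) - j0))

private theorem loc_ze (i j j0 : ℕ) (ε : ℝ) (hε : ε ≠ 0) :
    ε ^ (ze i j j0) = ε ^ j / ε ^ j0 * (ε ^ (2 * (i * (i - 1))) / ε ^ (j0 * (4 * i))) /
      (ε ^ (2 * ((j + 1) * j)) / ε ^ (j0 * (4 * (j + 1)))) := by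
  have h : ze i j j0 = ((j : ℕ) : ℤ) - ((j0 : ℕ) : ℤ) +
      (((2 * (i * (i - 1)) : ℕ) : ℤ) - ((j0 * (4 * i) : ℕ) : ℤ)) -
      (((2 * ((j + 1) * j) : ℕ) : ℤ) - ((j0 * (4 * (j + 1)) : ℕ) : ℤ)) := by
    unfold ze
    rcases i with _ | i
    · push_cast
      ring
    · rw [Nat.add_sub_cancel]
      push_cast
      ring
  rw [h, zpow_sub₀ hε, zpow_add₀ hε, zpow_sub₀ hε, zpow_sub₀ hε, zpow_sub₀ hε]
  simp only [zpow_natCast]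

private theorem loc_zo (i j j0 : ℕ) (ε : ℝ) (hε : ε ≠ 0) :
    ε ^ (zo i j j0) = ε ^ j / ε ^ j0 * (ε ^ (2 * i ^ 2) / ε ^ (j0 * (4 * i + 2))) /
      (ε ^ (2 * ((j + 1) * j)) / ε ^ (j0 * (4 * (j + 1)))) := by
  have h : zo i j j0 = ((j : ℕ) : ℤ) - ((j0 : ℕ) : ℤ) +
      (((2 * i ^ 2 : ℕ) : ℤ) - ((j0 * (4 * i + 2) : ℕ) : ℤ)) -
      (((2 * ((j + 1) * j) : ℕ) : ℤ) - ((j0 * (4 * (j + 1)) : ℕ) : ℤ)) := by
    unfold zo
    push_cast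
    ring
  rw [h, zpow_sub₀ hε, zpow_add₀ hε, zpow_sub₀ hε, zpow_sub₀ hε, zpow_sub₀ hε]
  simp only [zpow_natCast]

theorem ratio_e (i j j0 : ℕ) (ε τ s : ℝ) (hε : 0 < ε) (hτ : 0 < τ) (hs : 0 < s) :
    ε ^ j * s * (τ / ε ^ j0) * (Me i ε s (τ / ε ^ j0) / Me (j + 1) ε s (τ / ε ^ j0)) =
      s * (τ * (τ ^ (4 * i) / τ ^ (4 * (j + 1)))) * ε ^ (ze i j j0) := by
  rw [loc_ze i j j0 ε hε.ne']
  unfold Me
  rw [Nat.add_sub_cancel, div_pow, div_pow, ← pow_mul, ← pow_mul]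
  generalize ε ^ (2 * (i * (i - 1))) = a
  have h1 : ε ^ (2 * ((j + 1) * j)) ≠ 0 := (pow_pos hε _).ne'
  have h2 : ε ^ (j0 * (4 * i)) ≠ 0 := (pow_pos hε _).ne'
  have h3 : ε ^ (j0 * (4 * (j + 1))) ≠ 0 := (pow_pos hε _).ne'
  have h4 : ε ^ j0 ≠ 0 := (pow_pos hε _).ne'
  have h5 : τ ^ (4 * (j + 1)) ≠ 0 := (pow_pos hτ _).ne'
  generalize ε ^ (2 * ((j + 1) * j)) = b at *
  generalize ε ^ (j0 * (4 * i)) = c at *
  generalize ε ^ (j0 * (4 * (j + 1))) = d at *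
  generalize ε ^ j0 = e at *
  generalize ε ^ j = f
  generalize τ ^ (4 * (j + 1)) = g at *
  generalize τ ^ (4 * i) = h at *
  have h6 : s ≠ 0 := hs.ne'
  field_simp

theorem ratio_o (i j j0 : ℕ) (ε τ s : ℝ) (hε : 0 < ε) (hτ : 0 < τ) (hs : 0 < s) :
    ε ^ j * s * (τ / ε ^ j0) * (Mo i ε (τ / ε ^ j0) / Me (j + 1) ε s (τ / ε ^ j0)) =
      s⁻¹ * (τ * (τ ^ (4 * i + 2) / τ ^ (4 * (j + 1)))) * ε ^ (zo i j j0) := by
  rw [loc_zo i j j0 ε hε.ne']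
  unfold Me Mo
  rw [Nat.add_sub_cancel, div_pow, div_pow, ← pow_mul, ← pow_mul]
  generalize ε ^ (2 * i ^ 2) = a
  have h1 : ε ^ (2 * ((j + 1) * j)) ≠ 0 := (pow_pos hε _).ne'
  have h2 : ε ^ (j0 * (4 * i + 2)) ≠ 0 := (pow_pos hε _).ne'
  have h3 : ε ^ (j0 * (4 * (j + 1))) ≠ 0 := (pow_pos hε _).ne'
  have h4 : ε ^ j0 ≠ 0 := (pow_pos hε _).ne'
  have h5 : τ ^ (4 * (j + 1)) ≠ 0 := (pow_pos hτ _).ne'
  generalize ε ^ (2 * ((j + 1) * j)) = b at *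
  generalize ε ^ (j0 * (4 * i + 2)) = c at *
  generalize ε ^ (j0 * (4 * (j + 1))) = d at *
  generalize ε ^ j0 = e at *
  generalize ε ^ j = f
  generalize τ ^ (4 * (j + 1)) = g at *
  generalize τ ^ (4 * i + 2) = h at *
  have h6 : s ≠ 0 := hs.ne'
  field_simp

theorem ze_pos_right (i j j0 : ℕ) (h : j0 ≤ j) (hi : j + 1 < i) : 0 < ze i j j0 := by
  obtain ⟨a, rfl⟩ := Nat.exists_eq_add_of_le h
  obtain ⟨b, rfl⟩ := Nat.exists_eq_add_of_lt hi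
  have h1 : ze (j0 + a + 1 + b + 1) (j0 + a) j0 =
      ((a + 2 * ((a + b + 2) * (a + b + 1) - (a + 1) * a) : ℤ)) := by
    unfold ze
    push_cast
    ring
  rw [h1]
  have h2 : (0 : ℤ) ≤ a := Int.natCast_nonneg a
  have h3 : (0 : ℤ) ≤ b := Int.natCast_nonneg b
  nlinarith [mul_nonneg h2 h3, mul_nonneg h3 h3]

theorem ze_self (j j0 : ℕ) : ze (j + 1) j j0 = (j : ℤ) - j0 := by
  unfold ze
  push_cast
  ring

theorem zo_pos_right (i j j0 : ℕ) (h : j0 ≤ j) (hi : j + 1 ≤ i) : 0 < zo i j j0 := by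
  obtain ⟨a, rfl⟩ := Nat.exists_eq_add_of_le h
  obtain ⟨b, rfl⟩ := Nat.exists_eq_add_of_le hi
  have h1 : zo (j0 + a + 1 + b) (j0 + a) j0 =
      ((a + 2 * ((a + b + 1) ^ 2 - (a + 1) * a) : ℤ)) := by
    unfold zo
    push_cast
    ring
  rw [h1]
  have h2 : (0 : ℤ) ≤ a := Int.natCast_nonneg a
  have h3 : (0 : ℤ) ≤ b := Int.natCast_nonneg b
  nlinarith [mul_nonneg h2 h3, mul_nonneg h3 h3]

theorem ze_pos_left (i j j0 : ℕ) (h : j < j0) (hi : i ≤ j) : 0 < ze i j j0 := by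
  obtain ⟨b, rfl⟩ := Nat.exists_eq_add_of_le hi
  obtain ⟨a, rfl⟩ := Nat.exists_eq_add_of_lt h
  have h1 : ze i (i + b) (i + b + a + 1) =
      ((-(a + 1) + 2 * ((a + b + 1) * (a + b + 2) - a * (a + 1)) : ℤ)) := by
    unfold ze
    push_cast
    ring
  rw [h1]
  have h2 : (0 : ℤ) ≤ a := Int.natCast_nonneg a
  have h3 : (0 : ℤ) ≤ b := Int.natCast_nonneg b
  nlinarith [mul_nonneg h2 h3, mul_nonneg h3 h3]

theorem zo_pos_left (i j j0 : ℕ) (h : j < j0) (hi : i ≤ j) : 0 < zo i j j0 := by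
  obtain ⟨b, rfl⟩ := Nat.exists_eq_add_of_le hi
  obtain ⟨a, rfl⟩ := Nat.exists_eq_add_of_lt h
  have h1 : zo i (i + b) (i + b + a + 1) =
      ((-(a + 1) + 2 * ((a + b + 1) ^ 2 - a * (a + 1)) : ℤ)) := by
    unfold zo
    push_cast
    ring
  rw [h1]
  have h2 : (0 : ℤ) ≤ a := Int.natCast_nonneg a
  have h3 : (0 : ℤ) ≤ b := Int.natCast_nonneg b
  nlinarith [mul_nonneg h2 h3, mul_nonneg h3 h3]

end Fewnomial.Snake
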