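import Mathlib
import Pool.Agent.Lib.FewSnake.Defs

/-!
# `T` as a sum of tails (size about 100)

For `j < k` and `d ≤ k - 1 - j`:
`ε ^ j * s * v * (Me (j + 1 + d) / Me (j + 1)) = ε ^ (j + 2 * d * (2 * j + 1 + d)) * (s * v ^ (4 * d + 1))`,
since `(j + 1 + d) * (j + d) - (j + 1) * j = d * (2 * j + 1 + d)`; for `d + j + 1 < k`:
`ε ^ j * s * v * (Mo (j + 1 + d) / Me (j + 1))
  = ε ^ (j + 2 * (1 + d) ^ 2 + 2 * j * (2 * d + 1)) * (s⁻¹ * v ^ (4 * d + 3))`,
since `2 * (j + 1 + d) ^ 2 - 2 * (j + 1) * j = 2 * (1 + d) ^ 2 + 2 * j * (2 * d + 1) `.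
Write the inner sums over `Ico (j + 1) (k + 1)` and `Ico (j + 1) k` with `i = j + 1 + d`
(`Finset.sum_Ico_eq_sum_range`: `range (k - j)`, `range (k - 1 - j)`), divide termwise
(`Finset.sum_div`) and exchange the sums: the pairs `j < k, d < k - j` are the pairs
`d < k, j < k - d` (`Finset.sum_sigma'` / `Finset.sum_comm'`), and `j < k, d < k - 1 - j` are the pairs
`d < k - 1, j < k - 1 - d`.
-/

set_option autoImplicit false

namespace Fewnomial.Snake

open Finset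

private theorem term_e (j d : ℕ) (ε s v : ℝ) (hε : 0 < ε) (hs : 0 < s) (hv : 0 < v) :
    ε ^ j * s * v * (Me (j + 1 + d) ε s v / Me (j + 1) ε s v) =
      ε ^ (j + 2 * d * (2 * j + 1 + d)) * (s * v ^ (4 * d + 1)) := by
  have h1 : Me (j + 1 + d) ε s v =
      Me (j + 1) ε s v * (ε ^ (2 * d * (2 * j + 1 + d)) * v ^ (4 * d)) := by
    unfold Me
    have e1 : 2 * ((j + 1 + d) * (j + 1 + d - 1)) =
        2 * ((j + 1) * (j + 1 - 1)) + 2 * d * (2 * j + 1 + d) := by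
      have a1 : j + 1 + d - 1 = j + d := by omega
      have a2 : j + 1 - 1 = j := by omega
      rw [a1, a2]
      ring
    have e2 : 4 * (j + 1 + d) = 4 * (j + 1) + 4 * d := by ring
    rw [e1, e2, pow_add, pow_add]
    ring
  have h0 : Me (j + 1) ε s v ≠ 0 := by
    unfold Me
    positivity
  rw [h1, mul_div_cancel_left₀ _ h0, pow_add, pow_add, pow_one]
  ring

private theorem term_o (j d : ℕ) (ε s v : ℝ) (hε : 0 < ε) (hs : 0 < s) (hv : 0 < v) :
    ε ^ j * s * v * (Mo (j + 1 + d) ε v / Me (j + 1) ε s v) =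
      ε ^ (j + 2 * (1 + d) ^ 2 + 2 * j * (2 * d + 1)) * (s⁻¹ * v ^ (4 * d + 3)) := by
  have h1 : Mo (j + 1 + d) ε v = Me (j + 1) ε s v *
      (s⁻¹ ^ 2 * (ε ^ (2 * (1 + d) ^ 2 + 2 * j * (2 * d + 1)) * v ^ (4 * d + 2))) := by
    unfold Me Mo
    have e1 : 2 * (j + 1 + d) ^ 2 =
        2 * ((j + 1) * (j + 1 - 1)) + (2 * (1 + d) ^ 2 + 2 * j * (2 * d + 1)) := by
      have a2 : j + 1 - 1 = j := by omega
      rw [a2]
      ring
    have e2 : 4 * (j + 1 + d) + 2 = 4 * (j + 1) + (4 * d + 2) := by ring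
    have e3 : s ^ 2 * s⁻¹ ^ 2 = 1 := by
      rw [← mul_pow, mul_inv_cancel₀ hs.ne', one_pow]
    rw [e1, e2, pow_add ε (2 * ((j + 1) * (j + 1 - 1))), pow_add v (4 * (j + 1))]
    calc _ = (s ^ 2 * s⁻¹ ^ 2) * (ε ^ (2 * ((j + 1) * (j + 1 - 1))) *
          ε ^ (2 * (1 + d) ^ 2 + 2 * j * (2 * d + 1)) * (v ^ (4 * (j + 1)) * v ^ (4 * d + 2))) := by
          rw [e3, one_mul]
      _ = _ := by ring
  have h0 : Me (j + 1) ε s v ≠ 0 := by
    unfold Me
    positivity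
  have e4 : s * s⁻¹ = 1 := mul_inv_cancel₀ hs.ne'
  rw [h1, mul_div_cancel_left₀ _ h0, add_assoc, pow_add ε j]
  calc _ = (s * s⁻¹) * (ε ^ j * ε ^ (2 * (1 + d) ^ 2 + 2 * j * (2 * d + 1)) *
        (s⁻¹ * v ^ (4 * d + 3))) := by ring
    _ = _ := by rw [e4, one_mul]

theorem T_eq (k : ℕ) (ε s v : ℝ) (hε : 0 < ε) (hs : 0 < s) (hv : 0 < v) :
    T k ε s v = ∑ j ∈ range k, ε ^ j * s * v *
      ((∑ i ∈ Ico (j + 1) (k + 1), Me i ε s v - ∑ i ∈ Ico (j + 1) k, Mo i ε v) /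
        Me (j + 1) ε s v) := by
  have hR : ∀ j ∈ range k, ε ^ j * s * v *
      ((∑ i ∈ Ico (j + 1) (k + 1), Me i ε s v - ∑ i ∈ Ico (j + 1) k, Mo i ε v) /
        Me (j + 1) ε s v) =
      ∑ d ∈ range (k - j), ε ^ (j + 2 * d * (2 * j + 1 + d)) * (s * v ^ (4 * d + 1)) -
      ∑ d ∈ range (k - (j + 1)),
        ε ^ (j + 2 * (1 + d) ^ 2 + 2 * j * (2 * d + 1)) * (s⁻¹ * v ^ (4 * d + 3)) := by
    intro j _
    rw [Finset.sum_Ico_eq_sum_range, Finset.sum_Ico_eq_sum_range, Nat.add_sub_add_right,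
      sub_div, mul_sub, Finset.sum_div, Finset.sum_div, Finset.mul_sum, Finset.mul_sum]
    congr 1
    · exact Finset.sum_congr rfl fun d _ => term_e j d ε s v hε hs hv
    · exact Finset.sum_congr rfl fun d _ => term_o j d ε s v hε hs hv
  rw [Finset.sum_congr rfl hR, Finset.sum_sub_distrib]
  unfold T ca cb
  congr 1
  · rw [Finset.sum_congr rfl (fun d _ => Finset.sum_mul _ _ _)]
    refine Finset.sum_comm' ?_
    intro x y
    simp only [Finset.mem_range]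
    omega
  · rw [Finset.sum_congr rfl (fun d _ => Finset.sum_mul _ _ _)]
    refine Finset.sum_comm' ?_
    intro x y
    simp only [Finset.mem_range]
    omega
end Fewnomial.Snake
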