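import Mathlib
import Pool.Agent.Lib.FewSnake.Defs
import Pool.Agent.Lib.FewSnake.Rear
import Pool.Agent.Lib.FewSnake.Loc
import Pool.Agent.Lib.FewSnake.LimR

/-!
# Lemma L: the limit of `T` at a location (size about 170)

Notation: `j0` the location, `v = τ / ε ^ j0`, `s = √(R k e ε 0 v)`; for `ε > 0` one has `A, B > 0`,
`s > 0`, `s ^ 2 * B = A` i.e. `∑ i ∈ range (k + 1), Me i ε s v = ∑ i ∈ range k, Mo i ε v` (*).
By `lim_R`, `s → √(rho τ) > 0`, `s⁻¹ → (√(rho τ))⁻¹`.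
By `T_eq`, `T = ∑ j < k, ε ^ j * s * v * (tail j / Me (j + 1))`.  Show that the summand `j` tends to
`√(rho τ) * τ` if `j = j0` and to `0` otherwise; the sum is then `√(rho τ) * τ = τ ^ 2 / √(1 + τ ^ 4)`
(`Finset.sum_ite_eq`).
* `j0 ≤ j`: expand the tail over `i`; by `ratio_e`, `ratio_o` the terms are
  `s * const * ε ^ ze i j j0` (`i ≥ j + 1`) and `s⁻¹ * const * ε ^ zo i j j0` (`i ≥ j + 1`).
  `ze_pos_right` (`i > j + 1`), `zo_pos_right`: they tend to `0`.  The term `i = j + 1` is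
  `s * τ * ε ^ (j - j0)` (`ze_self`), which tends to `0` if `j0 < j` and is `s * τ` if `j = j0`.
* `j < j0`: by (*) and `Finset.sum_range_add_sum_Ico` (`Finset.range_eq_Ico`) the tail is
  `∑ i ∈ range (j + 1), Mo i - ∑ i ∈ range (j + 1), Me i`; all terms tend to `0` by `ratio_e`,
  `ratio_o`, `ze_pos_left`, `zo_pos_left`.
(`ε ^ z → 0` for an integer `z > 0`: write `z` as a natural number, `zpow_natCast`.)
-/

set_option autoImplicit false

namespace Fewnomial.Snake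

open Finset Filter
open scoped Topology

private theorem zpow_lim {z : ℤ} (hz : 0 < z) :
    Tendsto (fun ε : ℝ => ε ^ z) (𝓝[>] 0) (𝓝 0) := by
  obtain ⟨n, rfl⟩ := Int.eq_ofNat_of_zero_le hz.le
  have hn : n ≠ 0 := by
    rintro rfl
    simp at hz
  have h : Tendsto (fun ε : ℝ => ε ^ n) (𝓝 0) (𝓝 0) := by
    have := (continuous_pow n (M := ℝ)).tendsto 0
    rwa [zero_pow hn] at this
  simpa only [zpow_natCast] using h.mono_left nhdsWithin_le_nhds

private theorem A_pos {k : ℕ} (hk : 0 < k) {ε v : ℝ} (hε : 0 < ε) (hv : 0 < v) :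
    0 < A k ε v := by
  unfold A
  exact Finset.sum_pos (fun i _ => by positivity) ⟨0, mem_range.2 hk⟩

private theorem B_pos {k : ℕ} {ε v : ℝ} (hε : 0 < ε) (hv : 0 < v) : 0 < B k ε v := by
  unfold B
  exact Finset.sum_pos (fun i _ => by positivity) ⟨0, mem_range.2 (by omega)⟩

private theorem R_eq {k e : ℕ} {ε v : ℝ} : R k e ε 0 v = A k ε v / B k ε v := by
  unfold R
  rw [zero_mul, add_zero]

private theorem s_pos {k e : ℕ} (hk : 0 < k) {ε v : ℝ} (hε : 0 < ε) (hv : 0 < v) :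
    0 < √(R k e ε 0 v) := by
  rw [R_eq]
  exact Real.sqrt_pos.2 (div_pos (A_pos hk hε hv) (B_pos hε hv))

private theorem sum_eq {k e : ℕ} (hk : 0 < k) {ε v : ℝ} (hε : 0 < ε) (hv : 0 < v) :
    ∑ i ∈ range (k + 1), Me i ε (√(R k e ε 0 v)) v = ∑ i ∈ range k, Mo i ε v := by
  unfold Me Mo
  rw [← Finset.mul_sum]
  change √(R k e ε 0 v) ^ 2 * B k ε v = A k ε v
  have h1 := A_pos hk hε hv
  have h2 : 0 < B k ε v := B_pos hε hv
  rw [R_eq, Real.sq_sqrt (div_pos h1 h2).le, div_mul_cancel₀ _ h2.ne']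

/-- the even terms -/
private noncomputable def te (j0 : ℕ) (τ : ℝ) (i j : ℕ) (s ε : ℝ) : ℝ :=
  s * (τ * (τ ^ (4 * i) / τ ^ (4 * (j + 1)))) * ε ^ (ze i j j0)

/-- the odd terms -/
private noncomputable def tod (j0 : ℕ) (τ : ℝ) (i j : ℕ) (s ε : ℝ) : ℝ :=
  s⁻¹ * (τ * (τ ^ (4 * i + 2) / τ ^ (4 * (j + 1)))) * ε ^ (zo i j j0)

private theorem expand (j0 j : ℕ) (τ s ε : ℝ) (hτ : 0 < τ) (hs : 0 < s) (hε : 0 < ε)
    (I I' : Finset ℕ) :
    ε ^ j * s * (τ / ε ^ j0) *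
      ((∑ i ∈ I, Me i ε s (τ / ε ^ j0) - ∑ i ∈ I', Mo i ε (τ / ε ^ j0)) /
        Me (j + 1) ε s (τ / ε ^ j0)) =
      ∑ i ∈ I, te j0 τ i j s ε - ∑ i ∈ I', tod j0 τ i j s ε := by
  rw [sub_div, mul_sub, Finset.sum_div, Finset.sum_div, Finset.mul_sum, Finset.mul_sum]
  congr 1
  · exact Finset.sum_congr rfl fun i _ => ratio_e i j j0 ε τ s hε hτ hs
  · exact Finset.sum_congr rfl fun i _ => ratio_o i j j0 ε τ s hε hτ hs

theorem lim_T (k e j0 : ℕ) (hj : j0 < k) (τ : ℝ) (hτ : 0 < τ) :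
    Tendsto (fun ε : ℝ => T k ε (√(R k e ε 0 (τ / ε ^ j0))) (τ / ε ^ j0)) (𝓝[>] 0)
      (𝓝 (τ ^ 2 / √(1 + τ ^ 4))) := by
  have hk : 0 < k := by omega
  set s : ℝ → ℝ := fun ε => √(R k e ε 0 (τ / ε ^ j0)) with hsdef
  have hrho : 0 < rho τ := by unfold rho; positivity
  have Hs : Tendsto s (𝓝[>] 0) (𝓝 (√(rho τ))) := (lim_R k e j0 hj τ hτ).sqrt
  have Hsi : Tendsto (fun ε => (s ε)⁻¹) (𝓝[>] 0) (𝓝 (√(rho τ))⁻¹) :=
    Hs.inv₀ (Real.sqrt_pos.2 hrho).ne'
  have Hte : ∀ i j : ℕ, 0 < ze i j j0 →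
      Tendsto (fun ε => te j0 τ i j (s ε) ε) (𝓝[>] 0) (𝓝 0) := by
    intro i j h
    have := (Hs.mul_const (τ * (τ ^ (4 * i) / τ ^ (4 * (j + 1))))).mul (zpow_lim h)
    rw [mul_zero] at this
    exact this
  have Hto : ∀ i j : ℕ, 0 < zo i j j0 →
      Tendsto (fun ε => tod j0 τ i j (s ε) ε) (𝓝[>] 0) (𝓝 0) := by
    intro i j h
    have := (Hsi.mul_const (τ * (τ ^ (4 * i + 2) / τ ^ (4 * (j + 1))))).mul (zpow_lim h)
    rw [mul_zero] at this
    exact this
  have key : (fun ε : ℝ => ∑ j ∈ range k, (if j0 ≤ j then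
      ∑ i ∈ Ico (j + 1) (k + 1), te j0 τ i j (s ε) ε - ∑ i ∈ Ico (j + 1) k, tod j0 τ i j (s ε) ε
      else -(∑ i ∈ range (j + 1), te j0 τ i j (s ε) ε - ∑ i ∈ range (j + 1), tod j0 τ i j (s ε) ε)))
      =ᶠ[𝓝[>] 0] fun ε : ℝ => T k ε (s ε) (τ / ε ^ j0) := by
    filter_upwards [self_mem_nhdsWithin] with ε hε
    have hε : 0 < ε := hε
    have hv : 0 < τ / ε ^ j0 := by positivity
    have hs : 0 < s ε := s_pos hk hε hv
    rw [T_eq k ε (s ε) _ hε hs hv]
    refine Finset.sum_congr rfl fun j hjk => ?_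
    rw [mem_range] at hjk
    split_ifs with h
    · rw [expand j0 j τ (s ε) ε hτ hs hε]
    · rw [← expand j0 j τ (s ε) ε hτ hs hε, ← mul_neg, ← neg_div]
      congr 2
      have h1 := Finset.sum_range_add_sum_Ico (fun i => Me i ε (s ε) (τ / ε ^ j0))
        (show j + 1 ≤ k + 1 by omega)
      have h2 := Finset.sum_range_add_sum_Ico (fun i => Mo i ε (τ / ε ^ j0))
        (show j + 1 ≤ k by omega)
      have h3 := sum_eq (e := e) hk hε hv
      change ∑ i ∈ range (k + 1), Me i ε (s ε) (τ / ε ^ j0) = _ at h3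
      rw [← h1, ← h2] at h3
      linarith
  have lim1 : ∀ j ∈ range k, Tendsto (fun ε : ℝ => (if j0 ≤ j then
      ∑ i ∈ Ico (j + 1) (k + 1), te j0 τ i j (s ε) ε - ∑ i ∈ Ico (j + 1) k, tod j0 τ i j (s ε) ε
      else -(∑ i ∈ range (j + 1), te j0 τ i j (s ε) ε - ∑ i ∈ range (j + 1), tod j0 τ i j (s ε) ε)))
      (𝓝[>] 0) (𝓝 (if j = j0 then √(rho τ) * τ else 0)) := by
    intro j hjk
    rw [mem_range] at hjk
    by_cases h : j0 ≤ j
    · simp only [h, if_true]
      have h1 : Tendsto (fun ε : ℝ => ∑ i ∈ Ico (j + 1) k, tod j0 τ i j (s ε) ε) (𝓝[>] 0)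
          (𝓝 0) := by
        have := tendsto_finset_sum (Ico (j + 1) k) (fun i hi =>
          Hto i j (zo_pos_right i j j0 h (mem_Ico.1 hi).1))
        simpa using this
      have h2 : Tendsto (fun ε : ℝ => te j0 τ (j + 1) j (s ε) ε) (𝓝[>] 0)
          (𝓝 (if j = j0 then √(rho τ) * τ else 0)) := by
        have h3 : ∀ ε : ℝ, te j0 τ (j + 1) j (s ε) ε = s ε * τ * ε ^ ((j : ℤ) - j0) := by
          intro ε
          unfold te
          rw [ze_self, div_self (by positivity), mul_one]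
        simp only [h3]
        split_ifs with h4
        · subst h4
          simp only [sub_self, zpow_zero, mul_one]
          exact Hs.mul_const τ
        · have h5 : (0 : ℤ) < (j : ℤ) - j0 := by omega
          have := (Hs.mul_const τ).mul (zpow_lim h5)
          rwa [mul_zero] at this
      have h3 : Tendsto (fun ε : ℝ => ∑ i ∈ Ico (j + 1) (k + 1), te j0 τ i j (s ε) ε) (𝓝[>] 0)
          (𝓝 (if j = j0 then √(rho τ) * τ else 0)) := by
        have h4 : ∀ ε : ℝ, ∑ i ∈ Ico (j + 1) (k + 1), te j0 τ i j (s ε) ε =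
            te j0 τ (j + 1) j (s ε) ε + ∑ i ∈ Ico (j + 1 + 1) (k + 1), te j0 τ i j (s ε) ε :=
          fun ε => Finset.sum_eq_sum_Ico_succ_bot (by omega) _
        simp only [h4]
        have h5 : Tendsto (fun ε : ℝ => ∑ i ∈ Ico (j + 1 + 1) (k + 1), te j0 τ i j (s ε) ε)
            (𝓝[>] 0) (𝓝 0) := by
          have := tendsto_finset_sum (Ico (j + 1 + 1) (k + 1)) (fun i hi =>
            Hte i j (ze_pos_right i j j0 h (by have := (mem_Ico.1 hi).1; omega)))
          simpa using this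
        have := h2.add h5
        rwa [add_zero] at this
      have := h3.sub h1
      rwa [sub_zero] at this
    · have hne : ¬ j = j0 := by omega
      simp only [h, if_false, hne]
      have h1 := tendsto_finset_sum (range (j + 1)) (fun i hi =>
        Hte i j (ze_pos_left i j j0 (by omega) (by have := mem_range.1 hi; omega)))
      have h2 := tendsto_finset_sum (range (j + 1)) (fun i hi =>
        Hto i j (zo_pos_left i j j0 (by omega) (by have := mem_range.1 hi; omega)))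
      have := (h1.sub h2).neg
      simpa using this
  have lim2 := (tendsto_finset_sum (range k) lim1).congr' key
  have h1 : ∑ j ∈ range k, (if j = j0 then √(rho τ) * τ else 0) = τ ^ 2 / √(1 + τ ^ 4) := by
    rw [Finset.sum_ite_eq' (range k) j0, if_pos (mem_range.2 hj)]
    unfold rho
    rw [Real.sqrt_div (by positivity), Real.sqrt_sq hτ.le]
    ring
  rw [h1] at lim2
  exact lim2

end Fewnomial.Snake
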