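import Mathlib
import Pool.Agent.Lib.FewSnake.Defs
import Pool.Agent.Lib.FewSnake.Cnt

/-!
# The polynomials (size about 220)

Apply `count_graph` with `U v = (R k e ε η v) ^ (1 / (2 * Q))` (rpow), so `U v > 0`,
`U v ^ (2 * Q) = R k e ε η v`, `U v ^ Q = √(R k e ε η v)`,
`U v ^ (2 * E j) = (R ..) ^ ((E j : ℝ) / Q)`; differentiable since `R` is a quotient of polynomials
with positive denominator and `R > 0` (`1 ≤ k`).
First polynomial, `ι₁ = Fin (k + 1) ⊕ Fin e ⊕ Fin k`: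
`(2 Q, 4 i)` with coefficient `ε ^ (2 * (i * (i - 1)))`; `(2 Q, 4 (k + 1 + i))` with coefficient `η`;
`(0, 4 i + 2)` with coefficient `- ε ^ (2 * i ^ 2)`.  Its value at `(u, v)` is
`u ^ (2 Q) * (B + η D) - A`, zero on the graph; the derivative in `u` is
`2 Q u ^ (2 Q - 1) (B + η D) ≠ 0`.
Second polynomial (`q = k - 1`), `ι₂ = Fin n ⊕ (Fin k ⊕ Fin (k - 1)) ⊕ (Fin k ⊕ Fin (k - 1))`:
`(2 * E j, 4 k)` coefficient `w j`;
`(3 Q, 4 k + 4 d + 1)` coefficient `- ca k d ε`; `(Q, 4 k + 4 d + 3)` coefficient `cb k d ε`;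
`(3 Q, 4 k - 4 d - 1)` coefficient `- ca k d ε * (ε ^ (k-1))⁻¹ ^ (4 d + 1)`;
`(Q, 4 k - 4 d - 3)` coefficient `cb k d ε * (ε ^ (k-1))⁻¹ ^ (4 d + 3)`.
The exponent pairs are distinct (second coordinates: `4 k`; `> 4 k` and `1` mod `4`; `> 4 k` and `3`
mod `4`; `< 4 k` and `3` mod `4`; `< 4 k` and `1` mod `4`), the coefficients are nonzero (`ca`, `cb`
are nonempty sums of positive terms), the value on the graph is `v ^ (4 k) * F k n e Q E w ε η v`,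
which has the sign of `F`.  `i₀ = Sum.inl 0`.  Cardinalities: `2 k + 1 + e` and `n + 4 k - 2`.
-/

set_option autoImplicit false

namespace Fewnomial.Snake

open Finset

private theorem A_pos (k : ℕ) (hk : 1 ≤ k) (ε v : ℝ) (hε : 0 < ε) (hv : 0 < v) : 0 < A k ε v := by
  unfold A
  apply sum_pos
  · intro i _; positivity
  · exact ⟨0, mem_range.2 hk⟩

private theorem B_pos (k : ℕ) (ε v : ℝ) (hε : 0 < ε) (hv : 0 < v) : 0 < B k ε v := by
  unfold B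
  apply sum_pos
  · intro i _; positivity
  · exact ⟨0, mem_range.2 (Nat.succ_pos k)⟩

private theorem D_nonneg (k e : ℕ) (v : ℝ) (hv : 0 < v) : 0 ≤ D k e v := by
  unfold D
  apply sum_nonneg
  intro i _; positivity

private theorem den_pos (k e : ℕ) (ε η v : ℝ) (hε : 0 < ε) (hη : 0 < η) (hv : 0 < v) :
    0 < B k ε v + η * D k e v :=
  add_pos_of_pos_of_nonneg (B_pos k ε v hε hv) (mul_nonneg hη.le (D_nonneg k e v hv))

private theorem R_pos (k e : ℕ) (hk : 1 ≤ k) (ε η v : ℝ) (hε : 0 < ε) (hη : 0 < η) (hv : 0 < v) :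
    0 < R k e ε η v :=
  div_pos (A_pos k hk ε v hε hv) (den_pos k e ε η v hε hη hv)

private theorem R_diff (k e : ℕ) (ε η v : ℝ) (hε : 0 < ε) (hη : 0 < η) (hv : 0 < v) :
    DifferentiableAt ℝ (fun v => R k e ε η v) v := by
  unfold R
  have hd := (den_pos k e ε η v hε hη hv).ne'
  have h1 : DifferentiableAt ℝ (fun v => A k ε v) v := by unfold A; fun_prop
  have h2 : DifferentiableAt ℝ (fun v => B k ε v + η * D k e v) v := by unfold B D; fun_prop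
  exact h1.fun_div h2 hd

private noncomputable def U (k e Q : ℕ) (ε η v : ℝ) : ℝ := (R k e ε η v) ^ ((1 : ℝ) / (2 * (Q : ℝ)))

section
variable (k e Q : ℕ) (hk : 1 ≤ k) (hQ : 1 ≤ Q) (ε η v : ℝ) (hε : 0 < ε) (hη : 0 < η) (hv : 0 < v)
include hk hQ hε hη hv

private theorem U_pow (m : ℕ) : U k e Q ε η v ^ m = (R k e ε η v) ^ ((m : ℝ) / (2 * (Q : ℝ))) := by
  unfold U
  rw [← Real.rpow_natCast, ← Real.rpow_mul (R_pos k e hk ε η v hε hη hv).le]
  congr 1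
  ring

private theorem U_2Q : U k e Q ε η v ^ (2 * Q) = R k e ε η v := by
  rw [U_pow k e Q hk hQ ε η v hε hη hv]
  have : (Q : ℝ) ≠ 0 := by positivity
  have h : ((2 * Q : ℕ) : ℝ) / (2 * (Q : ℝ)) = 1 := by push_cast; field_simp
  rw [h, Real.rpow_one]

private theorem U_Q : U k e Q ε η v ^ Q = √(R k e ε η v) := by
  rw [U_pow k e Q hk hQ ε η v hε hη hv, Real.sqrt_eq_rpow]
  have : (Q : ℝ) ≠ 0 := by positivity
  congr 1
  field_simp

private theorem U_2E (m : ℕ) : U k e Q ε η v ^ (2 * m) = R k e ε η v ^ ((m : ℝ) / (Q : ℝ)) := by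
  rw [U_pow k e Q hk hQ ε η v hε hη hv]
  have : (Q : ℝ) ≠ 0 := by positivity
  congr 1
  push_cast
  field_simp

private theorem U_pos : 0 < U k e Q ε η v := Real.rpow_pos_of_pos (R_pos k e hk ε η v hε hη hv) _

private theorem U_diff : DifferentiableAt ℝ (fun v => U k e Q ε η v) v := by
  unfold U
  exact (R_diff k e ε η v hε hη hv).rpow_const (Or.inl (R_pos k e hk ε η v hε hη hv).ne')

end

private theorem ca_pos (k d : ℕ) (hd : d < k) (ε : ℝ) (hε : 0 < ε) : 0 < ca k d ε := by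
  unfold ca
  apply sum_pos
  · intro i _; positivity
  · exact ⟨0, mem_range.2 (by omega)⟩

private theorem cb_pos (k d : ℕ) (hd : d < k - 1) (ε : ℝ) (hε : 0 < ε) : 0 < cb k d ε := by
  unfold cb
  apply sum_pos
  · intro i _; positivity
  · exact ⟨0, mem_range.2 (by omega)⟩

/-- exponents and coefficients of the first polynomial -/
private def p1 (k e Q : ℕ) : Fin (k + 1) ⊕ (Fin e ⊕ Fin k) → ℕ :=
  Sum.elim (fun _ => 2 * Q) (Sum.elim (fun _ => 2 * Q) (fun _ => 0))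

private def q1 (k e : ℕ) : Fin (k + 1) ⊕ (Fin e ⊕ Fin k) → ℕ :=
  Sum.elim (fun i => 4 * (i : ℕ)) (Sum.elim (fun i => 4 * (k + 1 + (i : ℕ))) (fun i => 4 * (i : ℕ) + 2))

private noncomputable def c1 (k e : ℕ) (ε η : ℝ) : Fin (k + 1) ⊕ (Fin e ⊕ Fin k) → ℝ :=
  Sum.elim (fun i => ε ^ (2 * ((i : ℕ) * ((i : ℕ) - 1))))
    (Sum.elim (fun _ => η) (fun i => - ε ^ (2 * (i : ℕ) ^ 2)))

/-- exponents and coefficients of the second polynomial -/
private def p2 (k n Q : ℕ) (E : ℕ → ℕ) :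
    Fin n ⊕ ((Fin k ⊕ Fin (k - 1)) ⊕ (Fin k ⊕ Fin (k - 1))) → ℕ :=
  Sum.elim (fun j => 2 * E j) (Sum.elim (Sum.elim (fun _ => 3 * Q) (fun _ => Q))
    (Sum.elim (fun _ => 3 * Q) (fun _ => Q)))

private def q2 (k n : ℕ) :
    Fin n ⊕ ((Fin k ⊕ Fin (k - 1)) ⊕ (Fin k ⊕ Fin (k - 1))) → ℕ :=
  Sum.elim (fun _ => 4 * k) (Sum.elim
    (Sum.elim (fun d => 4 * k + 4 * (d : ℕ) + 1) (fun d => 4 * k + 4 * (d : ℕ) + 3))
    (Sum.elim (fun d => 4 * k - 4 * (d : ℕ) - 1) (fun d => 4 * k - 4 * (d : ℕ) - 3)))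

private noncomputable def c2 (k n : ℕ) (w : ℕ → ℝ) (ε : ℝ) :
    Fin n ⊕ ((Fin k ⊕ Fin (k - 1)) ⊕ (Fin k ⊕ Fin (k - 1))) → ℝ :=
  Sum.elim (fun j => w j) (Sum.elim
    (Sum.elim (fun d => - ca k d ε) (fun d => cb k d ε))
    (Sum.elim (fun d => - ca k d ε * (ε ^ (k - 1))⁻¹ ^ (4 * (d : ℕ) + 1))
      (fun d => cb k d ε * (ε ^ (k - 1))⁻¹ ^ (4 * (d : ℕ) + 3))))

private theorem inj1 (k e Q : ℕ) (hQ : 1 ≤ Q) (i j : Fin (k + 1) ⊕ (Fin e ⊕ Fin k))
    (h1 : p1 k e Q i = p1 k e Q j) (h2 : q1 k e i = q1 k e j) : i = j := by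
  rcases i with i | i | i <;> rcases j with j | j | j <;>
    simp only [p1, q1, Sum.elim_inl, Sum.elim_inr] at h1 h2 <;>
    have hi := i.isLt <;> have hj := j.isLt
  · have : i = j := Fin.ext (by omega)
    rw [this]
  · omega
  · omega
  · omega
  · have : i = j := Fin.ext (by omega)
    rw [this]
  · omega
  · omega
  · omega
  · have : i = j := Fin.ext (by omega)
    rw [this]

private theorem inj2 (k n Q : ℕ) (E : ℕ → ℕ)
    (hE : ∀ i < n, ∀ j < n, E i = E j → i = j)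
    (i j : Fin n ⊕ ((Fin k ⊕ Fin (k - 1)) ⊕ (Fin k ⊕ Fin (k - 1))))
    (h1 : p2 k n Q E i = p2 k n Q E j) (h2 : q2 k n i = q2 k n j) : i = j := by
  rcases i with i | (i | i) | (i | i) <;> rcases j with j | (j | j) | (j | j) <;>
    simp only [p2, q2, Sum.elim_inl, Sum.elim_inr] at h1 h2 <;>
    have hi := i.isLt <;> have hj := j.isLt
  · have : i = j := Fin.ext (hE i hi j hj (by omega))
    rw [this]
  all_goals first
    | omega
    | (have : i = j := Fin.ext (by omega)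
       rw [this])

private theorem c1_ne (k e : ℕ) (ε η : ℝ) (hε : 0 < ε) (hη : 0 < η) (i) : c1 k e ε η i ≠ 0 := by
  rcases i with i | i | i <;> simp only [c1, Sum.elim_inl, Sum.elim_inr]
  · positivity
  · exact hη.ne'
  · exact neg_ne_zero.2 (by positivity)

private theorem c2_ne (k n : ℕ) (w : ℕ → ℝ) (hw : ∀ j < n, w j ≠ 0) (ε : ℝ) (hε : 0 < ε) (i) :
    c2 k n w ε i ≠ 0 := by
  rcases i with i | (i | i) | (i | i) <;> simp only [c2, Sum.elim_inl, Sum.elim_inr]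
  · exact hw i i.isLt
  · exact neg_ne_zero.2 (ca_pos k i i.isLt ε hε).ne'
  · exact (cb_pos k i i.isLt ε hε).ne'
  · exact mul_ne_zero (neg_ne_zero.2 (ca_pos k i i.isLt ε hε).ne') (by positivity)
  · exact mul_ne_zero (cb_pos k i i.isLt ε hε).ne' (by positivity)

private theorem sum1 (k e Q : ℕ) (ε η u v : ℝ) :
    ∑ i, c1 k e ε η i * u ^ p1 k e Q i * v ^ q1 k e i =
      u ^ (2 * Q) * (B k ε v + η * D k e v) - A k ε v := by
  rw [Fintype.sum_sum_type, Fintype.sum_sum_type]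
  simp only [c1, p1, q1, Sum.elim_inl, Sum.elim_inr]
  rw [Fin.sum_univ_eq_sum_range (fun i => ε ^ (2 * (i * (i - 1))) * u ^ (2 * Q) * v ^ (4 * i)) (k + 1),
    Fin.sum_univ_eq_sum_range (fun i => η * u ^ (2 * Q) * v ^ (4 * (k + 1 + i))) e,
    Fin.sum_univ_eq_sum_range (fun i => - ε ^ (2 * i ^ 2) * u ^ 0 * v ^ (4 * i + 2)) k]
  unfold A B D
  rw [mul_add, mul_sum, mul_sum, mul_sum, add_sub_assoc, sub_eq_add_neg, ← sum_neg_distrib]
  refine congrArg₂ _ (sum_congr rfl fun i _ => by ring)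
    (congrArg₂ _ (sum_congr rfl fun i _ => by ring) (sum_congr rfl fun i _ => by ring))

private theorem sum1' (k e Q : ℕ) (ε η u v : ℝ) :
    ∑ i, c1 k e ε η i * ((p1 k e Q i : ℝ) * u ^ (p1 k e Q i - 1)) * v ^ q1 k e i =
      ((2 * Q : ℕ) : ℝ) * u ^ (2 * Q - 1) * (B k ε v + η * D k e v) := by
  rw [Fintype.sum_sum_type, Fintype.sum_sum_type]
  simp only [c1, p1, q1, Sum.elim_inl, Sum.elim_inr]
  rw [Fin.sum_univ_eq_sum_range (fun i => ε ^ (2 * (i * (i - 1))) *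
      (((2 * Q : ℕ) : ℝ) * u ^ (2 * Q - 1)) * v ^ (4 * i)) (k + 1),
    Fin.sum_univ_eq_sum_range (fun i => η * (((2 * Q : ℕ) : ℝ) * u ^ (2 * Q - 1)) *
      v ^ (4 * (k + 1 + i))) e]
  unfold B D
  simp only [Nat.cast_zero, zero_mul, mul_zero, sum_const_zero, add_zero]
  rw [mul_add, mul_sum, mul_sum, mul_sum]
  refine congrArg₂ _ (sum_congr rfl fun i _ => by ring) (sum_congr rfl fun i _ => by ring)

private theorem pow_split (v : ℝ) (hv : 0 < v) (g : ℝ) (K m : ℕ) (h : m ≤ K) :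
    v ^ K * (g * v)⁻¹ ^ m = g⁻¹ ^ m * v ^ (K - m) := by
  obtain ⟨r, rfl⟩ := Nat.exists_eq_add_of_le h
  rw [Nat.add_sub_cancel_left, mul_inv, mul_pow, pow_add]
  have : v ^ m * v⁻¹ ^ m = 1 := by rw [← mul_pow, mul_inv_cancel₀ hv.ne', one_pow]
  calc v ^ m * v ^ r * (g⁻¹ ^ m * v⁻¹ ^ m) = (v ^ m * v⁻¹ ^ m) * (g⁻¹ ^ m * v ^ r) := by ring
    _ = _ := by rw [this, one_mul]

private theorem sum2 (k n Q : ℕ) (E : ℕ → ℕ) (w : ℕ → ℝ) (ε u v r s : ℝ)
    (hε : 0 < ε) (hv : 0 < v) (hs : 0 < s) (hr : r = s * s) (hu : u ^ Q = s)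
    (hE : ∀ j, u ^ (2 * E j) = r ^ ((E j : ℝ) / (Q : ℝ))) :
    ∑ i, c2 k n w ε i * u ^ p2 k n Q E i * v ^ q2 k n i =
      v ^ (4 * k) * (W n Q E w r - r * S k ε s v) := by
  rw [Fintype.sum_sum_type, Fintype.sum_sum_type, Fintype.sum_sum_type, Fintype.sum_sum_type]
  simp only [c2, p2, q2, Sum.elim_inl, Sum.elim_inr]
  have hu3 : u ^ (3 * Q) = r * s := by rw [mul_comm 3 Q, pow_mul, hu, hr]; ring
  have hrs : r * s⁻¹ = s := by rw [hr]; field_simp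
  have e1 : ∑ i : Fin n, w i * u ^ (2 * E i) * v ^ (4 * k) = v ^ (4 * k) * W n Q E w r := by
    rw [Fin.sum_univ_eq_sum_range (fun i => w i * u ^ (2 * E i) * v ^ (4 * k)) n]
    unfold W
    rw [mul_sum]
    refine sum_congr rfl fun i _ => ?_
    rw [hE]; ring
  have e2 : ∑ d : Fin k, - ca k d ε * u ^ (3 * Q) * v ^ (4 * k + 4 * (d : ℕ) + 1) =
      - (v ^ (4 * k) * (r * ∑ d ∈ range k, ca k d ε * (s * v ^ (4 * d + 1)))) := by
    rw [Fin.sum_univ_eq_sum_range (fun d => - ca k d ε * u ^ (3 * Q) * v ^ (4 * k + 4 * d + 1)) k]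
    rw [mul_sum, mul_sum, ← sum_neg_distrib]
    refine sum_congr rfl fun d _ => ?_
    rw [hu3, add_assoc, pow_add]; ring
  have e3 : ∑ d : Fin (k - 1), cb k d ε * u ^ Q * v ^ (4 * k + 4 * (d : ℕ) + 3) =
      v ^ (4 * k) * (r * ∑ d ∈ range (k - 1), cb k d ε * (s⁻¹ * v ^ (4 * d + 3))) := by
    rw [Fin.sum_univ_eq_sum_range (fun d => cb k d ε * u ^ Q * v ^ (4 * k + 4 * d + 3)) (k - 1)]
    rw [mul_sum, mul_sum]
    refine sum_congr rfl fun d _ => ?_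
    rw [hu, add_assoc, pow_add]
    calc cb k d ε * s * (v ^ (4 * k) * v ^ (4 * d + 3)) =
        v ^ (4 * k) * (cb k d ε * (s * v ^ (4 * d + 3))) := by ring
      _ = v ^ (4 * k) * (cb k d ε * ((r * s⁻¹) * v ^ (4 * d + 3))) := by rw [hrs]
      _ = _ := by ring
  have hg : 0 < ε ^ (k - 1) := by positivity
  have e4 : ∑ d : Fin k, - ca k d ε * (ε ^ (k - 1))⁻¹ ^ (4 * (d : ℕ) + 1) * u ^ (3 * Q) *
      v ^ (4 * k - 4 * (d : ℕ) - 1) =
      - (v ^ (4 * k) * (r * ∑ d ∈ range k, ca k d ε * (s * (ε ^ (k - 1) * v)⁻¹ ^ (4 * d + 1)))) := by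
    rw [Fin.sum_univ_eq_sum_range (fun d => - ca k d ε * (ε ^ (k - 1))⁻¹ ^ (4 * d + 1) *
      u ^ (3 * Q) * v ^ (4 * k - 4 * d - 1)) k]
    rw [mul_sum, mul_sum, ← sum_neg_distrib]
    refine sum_congr rfl fun d hd => ?_
    have hd' := mem_range.1 hd
    have h := pow_split v hv (ε ^ (k - 1)) (4 * k) (4 * d + 1) (by omega)
    rw [Nat.sub_sub, hu3]
    calc _ = - (ca k d ε * (r * s) * ((ε ^ (k - 1))⁻¹ ^ (4 * d + 1) *
          v ^ (4 * k - (4 * d + 1)))) := by ring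
      _ = - (ca k d ε * (r * s) * (v ^ (4 * k) * (ε ^ (k - 1) * v)⁻¹ ^ (4 * d + 1))) := by rw [h]
      _ = _ := by ring
  have e5 : ∑ d : Fin (k - 1), cb k d ε * (ε ^ (k - 1))⁻¹ ^ (4 * (d : ℕ) + 3) * u ^ Q *
      v ^ (4 * k - 4 * (d : ℕ) - 3) =
      v ^ (4 * k) * (r * ∑ d ∈ range (k - 1), cb k d ε *
        (s⁻¹ * (ε ^ (k - 1) * v)⁻¹ ^ (4 * d + 3))) := by
    rw [Fin.sum_univ_eq_sum_range (fun d => cb k d ε * (ε ^ (k - 1))⁻¹ ^ (4 * d + 3) * u ^ Q *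
      v ^ (4 * k - 4 * d - 3)) (k - 1)]
    rw [mul_sum, mul_sum]
    refine sum_congr rfl fun d hd => ?_
    have hd' := mem_range.1 hd
    have h := pow_split v hv (ε ^ (k - 1)) (4 * k) (4 * d + 3) (by omega)
    rw [Nat.sub_sub, hu]
    calc _ = cb k d ε * s * ((ε ^ (k - 1))⁻¹ ^ (4 * d + 3) *
          v ^ (4 * k - (4 * d + 3))) := by ring
      _ = cb k d ε * (r * s⁻¹) * (v ^ (4 * k) * (ε ^ (k - 1) * v)⁻¹ ^ (4 * d + 3)) := by
          rw [h, hrs]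
      _ = _ := by ring
  rw [e1, e2, e3, e4, e5]
  unfold S T
  ring

theorem from_signs (k n e Q : ℕ) (hk : 1 ≤ k) (hn : 1 ≤ n) (hQ : 1 ≤ Q) (E : ℕ → ℕ)
    (hE : ∀ i < n, ∀ j < n, E i = E j → i = j) (w : ℕ → ℝ) (hw : ∀ j < n, w j ≠ 0)
    (ε η : ℝ) (hε : 0 < ε) (hη : 0 < η) {P : Type} [Fintype P] (a b : P → ℝ)
    (ha : ∀ p, 0 < a p) (hab : ∀ p, a p < b p) (hd : ∀ p q, p ≠ q → b p ≤ a q ∨ b q ≤ a p)
    (hs : ∀ p, F k n e Q E w ε η (a p) * F k n e Q E w ε η (b p) < 0) :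
    ((Fintype.card P : ℕ) : ℕ∞) ≤ N (2 * k + 1 + e) (n + 4 * k - 2) := by
  have key : ∀ v, 0 < v → ∑ i, c2 k n w ε i * U k e Q ε η v ^ p2 k n Q E i * v ^ q2 k n i =
      v ^ (4 * k) * F k n e Q E w ε η v := by
    intro v hv
    have hR := R_pos k e hk ε η v hε hη hv
    unfold F
    exact sum2 k n Q E w ε _ v _ _ hε hv (Real.sqrt_pos.2 hR) (Real.mul_self_sqrt hR.le).symm
      (U_Q k e Q hk hQ ε η v hε hη hv) (fun j => U_2E k e Q hk hQ ε η v hε hη hv (E j))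
  have h := count_graph (p1 k e Q) (q1 k e) (c1 k e ε η) (inj1 k e Q hQ) (c1_ne k e ε η hε hη)
    (p2 k n Q E) (q2 k n) (c2 k n w ε) (inj2 k n Q E hE) (c2_ne k n w hw ε hε)
    (Sum.inl ⟨0, hn⟩) (U k e Q ε η) (fun v hv => U_pos k e Q hk hQ ε η v hε hη hv)
    (fun v hv => U_diff k e Q hk hQ ε η v hε hη hv)
    (fun v hv => by
      rw [sum1, U_2Q k e Q hk hQ ε η v hε hη hv]
      unfold R
      rw [div_mul_cancel₀ _ (den_pos k e ε η v hε hη hv).ne', sub_self])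
    (fun v hv => by
      rw [sum1']
      have h1 := den_pos k e ε η v hε hη hv
      have h2 := U_pos k e Q hk hQ ε η v hε hη hv
      have h3 : (0 : ℝ) < ((2 * Q : ℕ) : ℝ) := by exact_mod_cast (by omega : 0 < 2 * Q)
      positivity)
    a b ha hab hd
    (fun p => by
      rw [key (a p) (ha p), key (b p) ((ha p).trans (hab p))]
      have h1 : 0 < a p ^ (4 * k) := pow_pos (ha p) _
      have h2 : 0 < b p ^ (4 * k) := pow_pos ((ha p).trans (hab p)) _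
      have h3 : a p ^ (4 * k) * F k n e Q E w ε η (a p) * (b p ^ (4 * k) * F k n e Q E w ε η (b p)) =
        (a p ^ (4 * k) * b p ^ (4 * k)) * (F k n e Q E w ε η (a p) * F k n e Q E w ε η (b p)) := by
        ring
      rw [h3]
      exact mul_neg_of_pos_of_neg (mul_pos h1 h2) (hs p))
  have c1' : Fintype.card (Fin (k + 1) ⊕ (Fin e ⊕ Fin k)) = 2 * k + 1 + e := by
    simp only [Fintype.card_sum, Fintype.card_fin]; omega
  have c2' : Fintype.card (Fin n ⊕ ((Fin k ⊕ Fin (k - 1)) ⊕ (Fin k ⊕ Fin (k - 1)))) =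
      n + 4 * k - 2 := by
    simp only [Fintype.card_sum, Fintype.card_fin]; omega
  rw [c1', c2'] at h
  exact h

end Fewnomial.Snake
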