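import Mathlib
import Pool.Agent.Lib.FewSnake.Defs
import Pool.Agent.Lib.FewSnake.LimT

/-!
# The symmetry of the snake and the limit of `S` (size about 120)

`A_symm`, `B_symm`: reflect the sum (`Finset.sum_range_reflect` or `Finset.sum_flip`):
`i ↦ k - 1 - i` for `A`, `i ↦ k - i` for `B`.  Exponents of `ε`:
`2 (k-1-i)^2 - (k-1)(4(k-1-i)+2) = 2 i^2 - 2 k (k-1)`,
`2 (k-i)(k-i-1) - 4 (k-i)(k-1) = 2 i (i-1) - 2 k (k-1)`.
`R_symm`: divide.  `lim_S`: for `v = τ / ε ^ j`, `(ε ^ (k - 1) * v)⁻¹ = τ⁻¹ / ε ^ (k - 1 - j)`,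
`R_symm` (so that the argument `√(R ..)` is the one of the location `k - 1 - j`, coordinate `τ⁻¹`),
`lim_T` twice, and
`τ^2/√(1+τ^4) + (τ⁻¹)^2/√(1+(τ⁻¹)^4) = (τ^2+1)/√(1+τ^4) = √(1 + 2 * rho τ)`.
-/

set_option autoImplicit false

namespace Fewnomial.Snake

open Finset Filter
open scoped Topology

private theorem term_aux (ε v : ℝ) (hε : 0 < ε) (hv : 0 < v) (p q r a b c d : ℕ)
    (h1 : a + b = c + p * q) (h2 : r = d + q) :
    ε ^ a * ((ε ^ p * v)⁻¹) ^ q * (ε ^ b * v ^ r) = ε ^ c * v ^ d := by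
  have hp : (ε ^ p * v) ^ q ≠ 0 := by positivity
  rw [inv_pow]
  have h3 : ε ^ a * (ε ^ b * v ^ r) = ε ^ c * v ^ d * (ε ^ p * v) ^ q := by
    rw [mul_pow, ← pow_mul, ← mul_assoc, ← pow_add, h1, h2, pow_add, pow_add]
    ring
  calc ε ^ a * ((ε ^ p * v) ^ q)⁻¹ * (ε ^ b * v ^ r)
      = ε ^ a * (ε ^ b * v ^ r) * ((ε ^ p * v) ^ q)⁻¹ := by ring
    _ = ε ^ c * v ^ d := by rw [h3, mul_assoc, mul_inv_cancel₀ hp, mul_one]

private theorem val_aux (τ : ℝ) (hτ : 0 < τ) :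
    τ ^ 2 / √(1 + τ ^ 4) + (τ⁻¹) ^ 2 / √(1 + (τ⁻¹) ^ 4) = √(1 + 2 * rho τ) := by
  have hpos : 0 < 1 + τ ^ 4 := by positivity
  have hs : 0 < √(1 + τ ^ 4) := Real.sqrt_pos.mpr hpos
  have h1 : √(1 + (τ⁻¹) ^ 4) = √(1 + τ ^ 4) / τ ^ 2 := by
    have h2 : 1 + (τ⁻¹) ^ 4 = (1 + τ ^ 4) / (τ ^ 2) ^ 2 := by
      field_simp
      ring
    rw [h2, Real.sqrt_div hpos.le, Real.sqrt_sq (by positivity)]
  have h3 : √(1 + 2 * rho τ) = (τ ^ 2 + 1) / √(1 + τ ^ 4) := by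
    have h4 : 1 + 2 * rho τ = (τ ^ 2 + 1) ^ 2 / (1 + τ ^ 4) := by
      unfold rho
      field_simp
      ring
    rw [h4, Real.sqrt_div (by positivity), Real.sqrt_sq (by positivity)]
  rw [h1, h3]
  field_simp

theorem A_symm (k : ℕ) (hk : 1 ≤ k) (ε v : ℝ) (hε : 0 < ε) (hv : 0 < v) :
    A k ε (ε ^ (k - 1) * v)⁻¹ * (ε ^ (2 * k * (k - 1)) * v ^ (4 * k)) = A k ε v := by
  unfold A
  rw [Finset.sum_mul, ← Finset.sum_range_reflect (fun i => ε ^ (2 * i ^ 2) * v ^ (4 * i + 2)) k]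
  refine Finset.sum_congr rfl fun i hi => ?_
  have hi' : i < k := Finset.mem_range.mp hi
  obtain ⟨m, rfl⟩ : ∃ m, k = i + m + 1 := ⟨k - 1 - i, by omega⟩
  have h1 : i + m + 1 - 1 = i + m := by omega
  have h2 : i + m - i = m := by omega
  simp only [h1, h2]
  refine term_aux ε v hε hv (i + m) (4 * i + 2) (4 * (i + m + 1)) (2 * i ^ 2)
    (2 * (i + m + 1) * (i + m)) (2 * m ^ 2) (4 * m + 2) ?_ ?_
  · ring
  · ring

theorem B_symm (k : ℕ) (hk : 1 ≤ k) (ε v : ℝ) (hε : 0 < ε) (hv : 0 < v) :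
    B k ε (ε ^ (k - 1) * v)⁻¹ * (ε ^ (2 * k * (k - 1)) * v ^ (4 * k)) = B k ε v := by
  unfold B
  rw [Finset.sum_mul, ← Finset.sum_range_reflect
    (fun i => ε ^ (2 * (i * (i - 1))) * v ^ (4 * i)) (k + 1)]
  refine Finset.sum_congr rfl fun i hi => ?_
  have hi' : i < k + 1 := Finset.mem_range.mp hi
  obtain ⟨m, rfl⟩ : ∃ m, k = i + m := ⟨k - i, by omega⟩
  have h1 : i + m + 1 - 1 - i = m := by omega
  simp only [h1]
  refine term_aux ε v hε hv (i + m - 1) (4 * i) (4 * (i + m)) (2 * (i * (i - 1)))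
    (2 * (i + m) * (i + m - 1)) (2 * (m * (m - 1))) (4 * m) ?_ ?_
  · rcases i with _ | i
    · simp only [Nat.zero_add, Nat.zero_mul, Nat.mul_zero, Nat.add_zero]
      ring
    · rcases m with _ | m
      · have h3 : i + 1 + 0 - 1 = i := by omega
        have h4 : i + 1 - 1 = i := by omega
        simp only [h3, h4]
        ring
      · have h3 : i + 1 + (m + 1) - 1 = i + m + 1 := by omega
        have h4 : i + 1 - 1 = i := by omega
        have h5 : m + 1 - 1 = m := by omega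
        simp only [h3, h4, h5]
        ring
  · ring

theorem R_symm (k e : ℕ) (hk : 1 ≤ k) (ε v : ℝ) (hε : 0 < ε) (hv : 0 < v) :
    R k e ε 0 (ε ^ (k - 1) * v)⁻¹ = R k e ε 0 v := by
  unfold R
  rw [zero_mul, zero_mul, add_zero, add_zero, ← A_symm k hk ε v hε hv, ← B_symm k hk ε v hε hv]
  have hc : ε ^ (2 * k * (k - 1)) * v ^ (4 * k) ≠ 0 := by positivity
  rw [mul_div_mul_right _ _ hc]

theorem lim_S (k e j : ℕ) (hj : j < k) (τ : ℝ) (hτ : 0 < τ) :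
    Tendsto (fun ε : ℝ => S k ε (√(R k e ε 0 (τ / ε ^ j))) (τ / ε ^ j)) (𝓝[>] 0)
      (𝓝 (√(1 + 2 * rho τ))) := by
  have hk : 1 ≤ k := by omega
  have hτ' : 0 < τ⁻¹ := inv_pos.mpr hτ
  have h1 := lim_T k e j hj τ hτ
  have h2 := lim_T k e (k - 1 - j) (by omega) τ⁻¹ hτ'
  have hval : τ ^ 2 / √(1 + τ ^ 4) + (τ⁻¹) ^ 2 / √(1 + (τ⁻¹) ^ 4) = √(1 + 2 * rho τ) :=
    val_aux τ hτ
  rw [← hval]
  refine Tendsto.congr' ?_ (h1.add h2)
  filter_upwards [self_mem_nhdsWithin] with ε hε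
  have hε : 0 < ε := hε
  have hv : 0 < τ / ε ^ j := by positivity
  have harg : (ε ^ (k - 1) * (τ / ε ^ j))⁻¹ = τ⁻¹ / ε ^ (k - 1 - j) := by
    have hp : ε ^ (k - 1) = ε ^ (k - 1 - j) * ε ^ j := by
      rw [← pow_add]
      congr 1
      omega
    rw [hp]
    have h3 : ε ^ (k - 1 - j) ≠ 0 := by positivity
    have h4 : ε ^ j ≠ 0 := by positivity
    field_simp
  have hR := R_symm k e hk ε (τ / ε ^ j) hε hv
  rw [harg] at hR
  unfold S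
  rw [harg, hR]

end Fewnomial.Snake
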