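import Mathlib
import Pool.Agent.Lib.FewSnake.Defs

/-!
# The points `τ` (size about 70)

For `0 < r < 1 / 2` there is a unique `τ ∈ (0, 1)` with `rho τ = r`:
`τ = √((1 - √(1 - 4 r ^ 2)) / (2 r))`, or the intermediate value theorem on `[0, 1]`
(`rho 0 = 0`, `rho 1 = 1 / 2`, `rho` continuous).  `rho` is strictly increasing on `(0, 1)`:
`rho b - rho a = (b^2 - a^2) (1 - a^2 b^2) / ((1 + a^4) (1 + b^4))`.  So `r i < r j` gives
`τ i < τ j`.  `rho τ⁻¹ = rho τ`.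
-/

set_option autoImplicit false

namespace Fewnomial.Snake

theorem rho_inv (τ : ℝ) (hτ : 0 < τ) : rho τ⁻¹ = rho τ := by
  unfold rho
  have h1 : (1 + τ ^ 4) ≠ 0 := by positivity
  have h2 : (1 + τ⁻¹ ^ 4) ≠ 0 := by positivity
  rw [div_eq_div_iff h2 h1]
  field_simp
  ring

private theorem rho_mono {a b : ℝ} (ha : 0 ≤ a) (hab : a ≤ b) (hb : b ≤ 1) : rho a ≤ rho b := by
  unfold rho
  rw [div_le_div_iff₀ (by positivity) (by positivity)]
  have h1 : 0 ≤ b ^ 2 - a ^ 2 := by nlinarith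
  have h2 : a * b ≤ 1 := by nlinarith
  have h3 : 0 ≤ 1 - a ^ 2 * b ^ 2 := by
    have : 0 ≤ a * b := mul_nonneg ha (ha.trans hab)
    nlinarith
  nlinarith [mul_nonneg h1 h3]

theorem exists_tau (m : ℕ) (r : Fin m → ℝ) (hr : StrictMono r) (h : ∀ i, 0 < r i ∧ r i < 1 / 2) :
    ∃ τ : Fin m → ℝ, StrictMono τ ∧ (∀ i, 0 < τ i ∧ τ i < 1) ∧ ∀ i, rho (τ i) = r i := by
  have hc : Continuous rho := by
    unfold rho
    exact (continuous_pow 2).div (by fun_prop) (fun τ => by positivity)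
  have hex : ∀ i, ∃ τ : ℝ, (0 < τ ∧ τ < 1) ∧ rho τ = r i := by
    intro i
    have h0 : rho 0 = 0 := by simp [rho]
    have h1 : rho 1 = 1 / 2 := by norm_num [rho]
    obtain ⟨τ, hτ, hr'⟩ := intermediate_value_Icc (zero_le_one' ℝ) hc.continuousOn
      (show r i ∈ Set.Icc (rho 0) (rho 1) by
        rw [h0, h1]; exact ⟨(h i).1.le, (h i).2.le⟩)
    refine ⟨τ, ⟨lt_of_le_of_ne hτ.1 ?_, lt_of_le_of_ne hτ.2 ?_⟩, hr'⟩
    · rintro rfl
      rw [h0] at hr'
      exact (h i).1.ne hr'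
    · rintro rfl
      rw [h1] at hr'
      exact (h i).2.ne hr'.symm
  choose τ hτ hr' using hex
  refine ⟨τ, fun i j hij => ?_, hτ, hr'⟩
  by_contra hcon
  have h1 := rho_mono (hτ j).1.le (not_lt.1 hcon) (hτ i).2.le
  rw [hr', hr'] at h1
  exact absurd (hr hij) (not_lt.2 h1)

end Fewnomial.Snake
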