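import Mathlib
import Pool.Agent.Lib.FewSnake.Defs

/-!
# The windows (size about 110; pure real inequalities)

`p = (j, b, i)`: location `j < k`, `b = false` the left branch, `b = true` the right branch,
`i < 2 n` the interval number.
Everything with first index `j` lies in `[τ 0 / ε ^ j, (τ 0)⁻¹ / ε ^ j]` and for `j < j'`
`(τ 0)⁻¹ / ε ^ j ≤ τ 0 / ε ^ j'` because `ε ^ (j' - j) ≤ ε < (τ 0) ^ 2`.
For `j = j'`, `b ≠ b'`: `τ i < 1 < (τ i')⁻¹`.  For `j = j'`, `b = b'`: compare `i` and `i'`.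
-/

set_option autoImplicit false

namespace Fewnomial.Snake

/-- left end points -/
noncomputable def lep (k n : ℕ) (τ : Fin (2 * n + 1) → ℝ) (ε : ℝ)
    (p : Fin k × Bool × Fin (2 * n)) : ℝ :=
  (if p.2.1 then (τ p.2.2.succ)⁻¹ else τ p.2.2.castSucc) / ε ^ (p.1 : ℕ)

/-- right end points -/
noncomputable def rep (k n : ℕ) (τ : Fin (2 * n + 1) → ℝ) (ε : ℝ)
    (p : Fin k × Bool × Fin (2 * n)) : ℝ :=
  (if p.2.1 then (τ p.2.2.castSucc)⁻¹ else τ p.2.2.succ) / ε ^ (p.1 : ℕ)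

private lemma num_bounds (n : ℕ) (τ : Fin (2 * n + 1) → ℝ) (hτ : StrictMono τ)
    (h01 : ∀ i, 0 < τ i ∧ τ i < 1) (i : Fin (2 * n + 1)) :
    τ 0 ≤ τ i ∧ τ i ≤ (τ 0)⁻¹ ∧ τ 0 ≤ (τ i)⁻¹ ∧ (τ i)⁻¹ ≤ (τ 0)⁻¹ := by
  have h0 := h01 0
  have hi := h01 i
  have hle : τ 0 ≤ τ i := hτ.monotone (Fin.zero_le i)
  have h1 : 1 < (τ 0)⁻¹ := (one_lt_inv₀ h0.1).mpr h0.2
  have h2 : 1 < (τ i)⁻¹ := (one_lt_inv₀ hi.1).mpr hi.2
  have h3 : (τ i)⁻¹ ≤ (τ 0)⁻¹ := inv_anti₀ h0.1 hle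
  exact ⟨hle, by linarith, by linarith, h3⟩

private lemma win_lt (k n : ℕ) (τ : Fin (2 * n + 1) → ℝ) (hτ : StrictMono τ)
    (h01 : ∀ i, 0 < τ i ∧ τ i < 1) (ε : ℝ) (hε : 0 < ε) (hε' : ε < (τ 0) ^ 2)
    (p q : Fin k × Bool × Fin (2 * n)) (h : (p.1 : ℕ) < (q.1 : ℕ)) :
    rep k n τ ε p ≤ lep k n τ ε q := by
  have h0 := h01 0
  have hp : 0 < ε ^ (p.1 : ℕ) := pow_pos hε _
  have hq : 0 < ε ^ (q.1 : ℕ) := pow_pos hε _
  have hr : rep k n τ ε p ≤ (τ 0)⁻¹ / ε ^ (p.1 : ℕ) := by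
    unfold rep
    apply div_le_div_of_nonneg_right _ hp.le
    split_ifs
    · exact (num_bounds n τ hτ h01 _).2.2.2
    · exact (num_bounds n τ hτ h01 _).2.1
  have hl : τ 0 / ε ^ (q.1 : ℕ) ≤ lep k n τ ε q := by
    unfold lep
    apply div_le_div_of_nonneg_right _ hq.le
    split_ifs
    · exact (num_bounds n τ hτ h01 _).2.2.1
    · exact (num_bounds n τ hτ h01 _).1
  have hm : (τ 0)⁻¹ / ε ^ (p.1 : ℕ) ≤ τ 0 / ε ^ (q.1 : ℕ) := by
    rw [div_le_div_iff₀ hp hq]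
    have h1 : ε < 1 := by
      have : (τ 0) ^ 2 < 1 := by nlinarith [h0.1, h0.2]
      linarith
    have h2 : ε ^ (q.1 : ℕ) = ε ^ (p.1 : ℕ) * ε ^ ((q.1 : ℕ) - (p.1 : ℕ)) := by
      rw [← pow_add]; congr 1; omega
    have h3 : ε ^ ((q.1 : ℕ) - (p.1 : ℕ)) ≤ ε := by
      have := pow_le_pow_of_le_one hε.le h1.le (show 1 ≤ (q.1 : ℕ) - (p.1 : ℕ) by omega)
      simpa using this
    have h4 : ε ^ ((q.1 : ℕ) - (p.1 : ℕ)) ≤ (τ 0) ^ 2 := by linarith
    have h5 : (τ 0)⁻¹ * ε ^ ((q.1 : ℕ) - (p.1 : ℕ)) ≤ τ 0 := by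
      rw [inv_mul_le_iff₀ h0.1]
      nlinarith
    rw [h2]
    calc (τ 0)⁻¹ * (ε ^ (p.1 : ℕ) * ε ^ ((q.1 : ℕ) - (p.1 : ℕ)))
        = ((τ 0)⁻¹ * ε ^ ((q.1 : ℕ) - (p.1 : ℕ))) * ε ^ (p.1 : ℕ) := by ring
      _ ≤ τ 0 * ε ^ (p.1 : ℕ) := mul_le_mul_of_nonneg_right h5 hp.le
  linarith

theorem win (k n : ℕ) (τ : Fin (2 * n + 1) → ℝ) (hτ : StrictMono τ)
    (h01 : ∀ i, 0 < τ i ∧ τ i < 1) (ε : ℝ) (hε : 0 < ε) (hε' : ε < (τ 0) ^ 2) :
    (∀ p : Fin k × Bool × Fin (2 * n), 0 < lep k n τ ε p) ∧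
    (∀ p : Fin k × Bool × Fin (2 * n), lep k n τ ε p < rep k n τ ε p) ∧
    ∀ p q : Fin k × Bool × Fin (2 * n), p ≠ q →
      rep k n τ ε p ≤ lep k n τ ε q ∨ rep k n τ ε q ≤ lep k n τ ε p := by
  refine ⟨?_, ?_, ?_⟩
  · intro p
    unfold lep
    apply div_pos _ (pow_pos hε _)
    split_ifs
    · exact inv_pos.mpr (h01 _).1
    · exact (h01 _).1
  · intro p
    unfold lep rep
    apply div_lt_div_of_pos_right _ (pow_pos hε _)
    have h1 : τ p.2.2.castSucc < τ p.2.2.succ := hτ (Fin.castSucc_lt_succ)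
    split_ifs
    · exact inv_strictAnti₀ (h01 _).1 h1
    · exact h1
  · intro p q hpq
    rcases lt_trichotomy (p.1 : ℕ) (q.1 : ℕ) with h | h | h
    · left; exact win_lt k n τ hτ h01 ε hε hε' p q h
    · obtain ⟨j, b, i⟩ := p
      obtain ⟨j', b', i'⟩ := q
      have hj : j = j' := Fin.ext h
      subst hj
      have hp : 0 < ε ^ (j : ℕ) := pow_pos hε _
      have one_lt : ∀ i, 1 < (τ i)⁻¹ := fun i => (one_lt_inv₀ (h01 i).1).mpr (h01 i).2
      unfold rep lep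
      have key : ∀ a c : ℝ, a ≤ c → a / ε ^ (j : ℕ) ≤ c / ε ^ (j : ℕ) :=
        fun a c hac => div_le_div_of_nonneg_right hac hp.le
      have mono : ∀ x y : Fin (2 * n), x < y → τ x.succ ≤ τ y.castSucc := by
        intro x y hxy
        apply hτ.monotone
        rw [Fin.le_def]
        simp only [Fin.val_succ, Fin.val_castSucc]
        have : (x : ℕ) < (y : ℕ) := hxy
        omega
      cases b <;> cases b'
      · have hne : i ≠ i' := by
          intro h; subst h; exact hpq rfl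
        rcases lt_or_gt_of_ne hne with hlt | hlt
        · left
          exact key _ _ (by simpa using mono _ _ hlt)
        · right
          exact key _ _ (by simpa using mono _ _ hlt)
      · left
        refine key _ _ ?_
        have h1 := (h01 i.succ).2
        have h2 := one_lt i'.succ
        simp only [Bool.false_eq_true, if_false, if_true]
        linarith
      · right
        refine key _ _ ?_
        have h1 := (h01 i'.succ).2
        have h2 := one_lt i.succ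
        simp only [Bool.false_eq_true, if_false, if_true]
        linarith
      · have hne : i ≠ i' := by
          intro h; subst h; exact hpq rfl
        rcases lt_or_gt_of_ne hne with hlt | hlt
        · right
          refine key _ _ ?_
          simp only [if_true]
          exact inv_anti₀ (h01 _).1 (mono _ _ hlt)
        · left
          refine key _ _ ?_
          simp only [if_true]
          exact inv_anti₀ (h01 _).1 (mono _ _ hlt)
    · right; exact win_lt k n τ hτ h01 ε hε hε' q p h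

end Fewnomial.Snake
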