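import Mathlib
import Pool.Agent.Lib.FewSnake.Defs
import Pool.Agent.Lib.FewSnake.AltW
import Pool.Agent.Lib.FewSnake.SymR
import Pool.Agent.Lib.FewSnake.Tau
import Pool.Agent.Lib.FewSnake.Win
import Pool.Agent.Lib.FewSnake.PolyN

/-!
# Assembly (size about 170)

Take `Q, E, w, r, σ` from `alt_W n hn` and `τ` from `exists_tau`.
1. `lim_F`: for `j < k`, `x > 0`: `F k n e Q E w ε 0 (x / ε ^ j) → W n Q E w (rho x) -
   rho x * √(1 + 2 * rho x)` as `ε → 0+` (`lim_R`, `lim_S`, continuity of `W` at `rho x > 0`).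
   For `x = τ i` and for `x = (τ i)⁻¹` (`rho_inv`) the limit is `W (r i) - r i * √(1 + 2 * r i)`, so
   eventually `0 < (-1) ^ i * σ * F (..)` at both points, for all `i` and all `j < k`.
2. Fix `ε > 0`, `ε < (τ 0) ^ 2` with all these inequalities.
3. `η ↦ F k n e Q E w ε η v` is continuous at `0` for `v > 0` (`B k ε v > 0`, `A k ε v > 0`), so there is
   `η > 0` with the same inequalities.
4. `from_signs` with `lep`, `rep`, `win`; `P = Fin k × Bool × Fin (2 * n)` has `4 k n` elements; the end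
   points of an interval carry the numbers `i` and `i + 1`, so the signs are opposite.
-/

set_option autoImplicit false

namespace Fewnomial.Snake

open Finset Filter
open scoped Topology

private lemma A_pos' (k : ℕ) (hk : 1 ≤ k) (ε v : ℝ) (hε : 0 < ε) (hv : 0 < v) : 0 < A k ε v := by
  unfold A
  refine sum_pos (fun i _ => by positivity) ?_
  rw [nonempty_range_iff]
  omega

private lemma B_pos' (k : ℕ) (ε v : ℝ) (hε : 0 < ε) (hv : 0 < v) : 0 < B k ε v := by
  unfold B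
  refine sum_pos (fun i _ => by positivity) ?_
  rw [nonempty_range_iff]
  omega

private lemma rho_pos' (x : ℝ) (hx : 0 < x) : 0 < rho x := by
  unfold rho
  positivity

private lemma W_cont (n Q : ℕ) (E : ℕ → ℕ) (w : ℕ → ℝ) (r : ℝ) (hr : 0 < r) :
    ContinuousAt (W n Q E w) r := by
  unfold W
  refine tendsto_finsetSum _ fun j _ => ?_
  exact tendsto_const_nhds.mul (Real.continuousAt_rpow_const r _ (Or.inl hr.ne'))

private lemma lim_F (k n e Q j : ℕ) (hj : j < k) (E : ℕ → ℕ) (w : ℕ → ℝ) (x : ℝ) (hx : 0 < x) :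
    Tendsto (fun ε : ℝ => F k n e Q E w ε 0 (x / ε ^ j)) (𝓝[>] 0)
      (𝓝 (W n Q E w (rho x) - rho x * √(1 + 2 * rho x))) := by
  have hR := lim_R k e j hj x hx
  have hS := lim_S k e j hj x hx
  have hW : Tendsto (fun ε : ℝ => W n Q E w (R k e ε 0 (x / ε ^ j))) (𝓝[>] 0)
      (𝓝 (W n Q E w (rho x))) := (W_cont n Q E w _ (rho_pos' x hx)).tendsto.comp hR
  exact hW.sub (hR.mul hS)

private lemma T_cont (k : ℕ) (ε v s : ℝ) (hs : 0 < s) :
    ContinuousAt (fun s : ℝ => T k ε s v) s := by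
  unfold T
  refine ContinuousAt.sub ?_ ?_
  · refine tendsto_finsetSum _ fun d _ => ?_
    exact tendsto_const_nhds.mul (tendsto_id.mul tendsto_const_nhds)
  · refine tendsto_finsetSum _ fun d _ => ?_
    exact tendsto_const_nhds.mul ((continuousAt_inv₀ hs.ne').tendsto.mul tendsto_const_nhds)

private lemma F_cont (k n e Q : ℕ) (hk : 1 ≤ k) (E : ℕ → ℕ) (w : ℕ → ℝ) (ε v : ℝ) (hε : 0 < ε)
    (hv : 0 < v) : Tendsto (fun η : ℝ => F k n e Q E w ε η v) (𝓝[>] 0)
      (𝓝 (F k n e Q E w ε 0 v)) := by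
  have hA := A_pos' k hk ε v hε hv
  have hB := B_pos' k ε v hε hv
  have hR0 : 0 < R k e ε 0 v := by
    unfold R
    rw [zero_mul, add_zero]
    positivity
  have hR : ContinuousAt (fun η : ℝ => R k e ε η v) 0 := by
    unfold R
    refine ContinuousAt.div continuousAt_const ?_ ?_
    · fun_prop
    · rw [zero_mul, add_zero]
      exact hB.ne'
  have hs : ContinuousAt (fun η : ℝ => √(R k e ε η v)) 0 :=
    Real.continuous_sqrt.continuousAt.comp hR
  have hs0 : 0 < √(R k e ε 0 v) := Real.sqrt_pos.mpr hR0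
  have hT : ∀ y : ℝ, Tendsto (fun η : ℝ => T k ε (√(R k e ε η v)) y) (𝓝 0)
      (𝓝 (T k ε (√(R k e ε 0 v)) y)) := fun y => (T_cont k ε y _ hs0).tendsto.comp hs.tendsto
  have hW : Tendsto (fun η : ℝ => W n Q E w (R k e ε η v)) (𝓝 0)
      (𝓝 (W n Q E w (R k e ε 0 v))) := (W_cont n Q E w _ hR0).tendsto.comp hR.tendsto
  have hF : Tendsto (fun η : ℝ => F k n e Q E w ε η v) (𝓝 0)
      (𝓝 (F k n e Q E w ε 0 v)) :=
    hW.sub (hR.tendsto.mul ((hT v).add (hT _)))
  exact hF.mono_left nhdsWithin_le_nhds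

theorem main (k n e : ℕ) (hk : 1 ≤ k) (hn : 1 ≤ n) :
    ((4 * k * n : ℕ) : ℕ∞) ≤ N (2 * k + 1 + e) (n + 4 * k - 2) := by
  obtain ⟨Q, E, w, r, σ, hQ, hE, hw, hr, hr01, hsign⟩ := alt_W n hn
  obtain ⟨τ, hτm, hτ01, hτr⟩ := exists_tau (2 * n + 1) r hr hr01
  -- the points
  have hpos : ∀ (i : Fin (2 * n + 1)) (b : Bool), 0 < (if b then (τ i)⁻¹ else τ i) := by
    intro i b
    have := (hτ01 i).1
    cases b <;> simp [this]
  have hrho : ∀ (i : Fin (2 * n + 1)) (b : Bool), rho (if b then (τ i)⁻¹ else τ i) = r i := by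
    intro i b
    have := (hτ01 i).1
    cases b
    · simp [hτr]
    · simp [rho_inv _ this, hτr]
  -- the choice of ε
  have h1 : ∀ᶠ ε : ℝ in 𝓝[>] 0, ∀ z : Fin (2 * n + 1) × Bool × Fin k,
      0 < (-1) ^ (z.1 : ℕ) * σ *
        F k n e Q E w ε 0 ((if z.2.1 then (τ z.1)⁻¹ else τ z.1) / ε ^ (z.2.2 : ℕ)) := by
    rw [eventually_all]
    rintro ⟨i, b, j⟩
    have hl := (lim_F k n e Q j j.2 E w _ (hpos i b)).const_mul ((-1) ^ (i : ℕ) * σ)
    rw [hrho] at hl
    exact hl.eventually (lt_mem_nhds (hsign i))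
  have h2 : ∀ᶠ ε : ℝ in 𝓝[>] 0, ε < (τ 0) ^ 2 := by
    have h3 : (0 : ℝ) < (τ 0) ^ 2 := by
      have := (hτ01 0).1
      positivity
    exact mem_nhdsWithin_of_mem_nhds (gt_mem_nhds h3)
  obtain ⟨ε, hε1, hε2, hε⟩ := (h1.and (h2.and self_mem_nhdsWithin)).exists
  have hε : 0 < ε := hε
  -- the choice of η
  have h3 : ∀ᶠ η : ℝ in 𝓝[>] 0, ∀ z : Fin (2 * n + 1) × Bool × Fin k,
      0 < (-1) ^ (z.1 : ℕ) * σ *
        F k n e Q E w ε η ((if z.2.1 then (τ z.1)⁻¹ else τ z.1) / ε ^ (z.2.2 : ℕ)) := by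
    rw [eventually_all]
    rintro z
    have hv : 0 < (if z.2.1 then (τ z.1)⁻¹ else τ z.1) / ε ^ (z.2.2 : ℕ) :=
      div_pos (hpos z.1 z.2.1) (pow_pos hε _)
    exact ((F_cont k n e Q hk E w ε _ hε hv).const_mul ((-1) ^ (z.1 : ℕ) * σ)).eventually
      (lt_mem_nhds (hε1 z))
  obtain ⟨η, hη1, hη⟩ := (h3.and self_mem_nhdsWithin).exists
  have hη : 0 < η := hη
  obtain ⟨w1, w2, w3⟩ := win k n τ hτm hτ01 ε hε hε2
  have hfin := from_signs k n e Q hk hn hQ E hE w hw ε η hε hη (lep k n τ ε) (rep k n τ ε)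
    w1 w2 w3 ?_
  · refine le_trans (le_of_eq ?_) hfin
    rw [Fintype.card_prod, Fintype.card_prod, Fintype.card_fin, Fintype.card_bool,
      Fintype.card_fin]
    congr 1
    ring
  · rintro ⟨j, b, i⟩
    have hσ : σ ≠ 0 := by
      rintro rfl
      have := hsign 0
      simp at this
    have hneg : ∀ (m : ℕ) (X Y : ℝ), 0 < (-1) ^ m * σ * X → 0 < (-1) ^ (m + 1) * σ * Y →
        X * Y < 0 := by
      intro m X Y hX hY
      have h4 := mul_pos hX hY
      have h5 : (-1) ^ m * σ * X * ((-1) ^ (m + 1) * σ * Y) = -(σ ^ 2 * (X * Y)) := by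
        have h6 : ((-1 : ℝ) ^ m) * (-1) ^ m = 1 := by
          rw [← pow_add, ← two_mul, pow_mul]
          simp
        calc (-1) ^ m * σ * X * ((-1) ^ (m + 1) * σ * Y)
            = ((-1 : ℝ) ^ m * (-1) ^ m) * (-(σ ^ 2 * (X * Y))) := by
              rw [pow_succ]; ring
          _ = _ := by rw [h6, one_mul]
      rw [h5] at h4
      by_contra hcon
      push Not at hcon
      have : 0 ≤ σ ^ 2 * (X * Y) := mul_nonneg (sq_nonneg _) hcon
      linarith
    have ha := hη1 (i.castSucc, b, j)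
    have hb := hη1 (i.succ, b, j)
    simp only [Fin.val_castSucc, Fin.val_succ] at ha hb
    cases b
    · have := hneg _ _ _ ha hb
      simpa [lep, rep] using this
    · have := hneg _ _ _ ha hb
      rw [mul_comm] at this
      simpa [lep, rep] using this

end Fewnomial.Snake
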